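import Pool.Agent.K1H30.OP2.Modes

/-! The part of the perturbation which cancels the nonlinearity on the modes. -/

open Set Filter Topology MeasureTheory

set_option autoImplicit false

namespace Pool.Agent.K1H30.OP2

open Pool.Agent.Y5 Pool.Agent.Y5.D Pool.Agent.Y5.E Pool.Agent.K1H54.LO Pool.Agent.K1H54.L2
open Pool.Agent.Y248.ND (bil_anti)
open Pool.Agent.K1H30.OP (rap_bd rap_sum rap_sq sum0 sum1 sq0 sq1 bd0 sumr l2_nonneg h1_nonneg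
  A1_nonneg cs BB BB_ot BB_rap bil_eq_pair psum rap_add rap_neg ot_add ot_neg pair_add pair_neg
  bil_low bil_add1 bil_smul1 bil_z1 bil_z2 bil_z3)

variable {I : Type} {g : I → Fam} {S : I → Finset Z3} {R : I → ℝ} {V W Z : Fam}

theorem bg_small (hT : S_TRI) (h : Md g S R) {M : ℝ} (hM : 0 ≤ M)
    (hsup : ∀ y, ‖fieldOf (Pg g V) y‖ ≤ M) (hV : Rap V) (hW : OT W)
    (hWr : Rap W) (hZ : OT Z) (hZr : Rap Z) :
    |bg g V W Z| ≤ 6 * Real.pi * M * (h1 W * l2 Z) := by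
  have o1 := h.Pg_ot V
  have o2 := h.Pg_ot W
  have o3 := h.Pg_ot Z
  have r1 := h.Pg_rap hV
  have r2 := h.Pg_rap hWr
  have r3 := h.Pg_rap hZr
  have hp := Real.pi_pos
  have a1 := hT (Pg g V) (Pg g W) Z M o1 r1 o2 r2 hZ hZr hsup
  have a2 := hT (Pg g V) W (Pg g Z) M o1 r1 hW hWr o3 r3 hsup
  have a3 := hT (Pg g V) (Pg g W) (Pg g Z) M o1 r1 o2 r2 o3 r3 hsup
  have b1 : h1 (Pg g W) * l2 Z ≤ h1 W * l2 Z :=
    mul_le_mul_of_nonneg_right (h.Pg_h1 hWr) (l2_nonneg _)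
  have b2 : h1 W * l2 (Pg g Z) ≤ h1 W * l2 Z :=
    mul_le_mul_of_nonneg_left (h.Pg_l2 hZr) (h1_nonneg _)
  have b3 : h1 (Pg g W) * l2 (Pg g Z) ≤ h1 W * l2 Z :=
    mul_le_mul (h.Pg_h1 hWr) (h.Pg_l2 hZr) (l2_nonneg _) (h1_nonneg _)
  have hc : 0 ≤ 2 * Real.pi * M := by positivity
  have c1 := a1.trans (mul_le_mul_of_nonneg_left b1 hc)
  have c2 := a2.trans (mul_le_mul_of_nonneg_left b2 hc)
  have c3 := a3.trans (mul_le_mul_of_nonneg_left b3 hc)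
  unfold bg
  rw [abs_neg]
  refine (abs_sub _ _).trans ((add_le_add (abs_add_le _ _) le_rfl).trans ?_)
  refine (add_le_add (add_le_add c1 c2) c3).trans (le_of_eq ?_)
  ring

theorem bg_low (h : Md g S R) (hV : Rap V) (hW : Rap W) (hZ : Rap Z) :
    |bg g V W Z| ≤ 6 * Real.pi * (l2 V * A1 1 W * l2 Z) := by
  have r1 := h.Pg_rap hV
  have r2 := h.Pg_rap hW
  have r3 := h.Pg_rap hZ
  have t := (h.Pg_ot V).tan
  have hp := Real.pi_pos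
  have a1 := bil_low r1 r2 hZ r1 r2 hZ (fun _ => le_rfl) (fun _ => le_rfl) (fun _ => le_rfl) t
  have a2 := bil_low r1 hW r3 r1 hW r3 (fun _ => le_rfl) (fun _ => le_rfl) (fun _ => le_rfl) t
  have a3 := bil_low r1 r2 r3 r1 r2 r3 (fun _ => le_rfl) (fun _ => le_rfl) (fun _ => le_rfl) t
  have eV := h.Pg_l2 hV
  have eZ := h.Pg_l2 hZ
  have eW := h.Pg_A1 hW (le_refl (1 : ℝ))
  have nV := l2_nonneg (Pg g V)
  have nV' := l2_nonneg V
  have nZ := l2_nonneg (Pg g Z)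
  have nZ' := l2_nonneg Z
  have nW := A1_nonneg 1 (Pg g W)
  have nW' := A1_nonneg 1 W
  have b1 : l2 (Pg g V) * A1 1 (Pg g W) * l2 Z ≤ l2 V * A1 1 W * l2 Z := by gcongr
  have b2 : l2 (Pg g V) * A1 1 W * l2 (Pg g Z) ≤ l2 V * A1 1 W * l2 Z := by gcongr
  have b3 : l2 (Pg g V) * A1 1 (Pg g W) * l2 (Pg g Z) ≤ l2 V * A1 1 W * l2 Z := by gcongr
  have hc : 0 ≤ 2 * Real.pi := by positivity
  have c1 := a1.trans (mul_le_mul_of_nonneg_left b1 hc)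
  have c2 := a2.trans (mul_le_mul_of_nonneg_left b2 hc)
  have c3 := a3.trans (mul_le_mul_of_nonneg_left b3 hc)
  unfold bg
  rw [abs_neg]
  refine (abs_sub _ _).trans ((add_le_add (abs_add_le _ _) le_rfl).trans ?_)
  refine (add_le_add (add_le_add c1 c2) c3).trans (le_of_eq ?_)
  ring

theorem bg_range (h : Md g S R) (hVr : Rap V) (hWr : Rap W) :
    ∃ G, OT G ∧ Rap G ∧ ∀ Z, OT Z → Rap Z → bg g V W Z = pair G Z := by
  have o1 := h.Pg_ot V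
  have o2 := h.Pg_ot W
  have r1 := h.Pg_rap hVr
  have r2 := h.Pg_rap hWr
  have g1 := BB_ot o1 o2
  have g1r := BB_rap r1 r2
  have g2' := BB_rap r1 hWr
  have g2 : OT (Pg g (BB (Pg g V) W)) := h.Pg_ot _
  have g2r : Rap (Pg g (BB (Pg g V) W)) := h.Pg_rap g2'
  have g3 : OT (Pg g (BB (Pg g V) (Pg g W))) := h.Pg_ot _
  have g3r : Rap (Pg g (BB (Pg g V) (Pg g W))) := h.Pg_rap g1r
  refine ⟨fun k => -((fun k => BB (Pg g V) (Pg g W) k + Pg g (BB (Pg g V) W) k) k +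
    (fun k => -Pg g (BB (Pg g V) (Pg g W)) k) k),
    ot_neg (ot_add (ot_add g1 g2) (ot_neg g3)), rap_neg (rap_add (rap_add g1r g2r) (rap_neg g3r)),
    fun Z hZ hZr => ?_⟩
  rw [pair_neg, pair_add (rap_add g1r g2r) (rap_neg g3r) hZr, pair_add g1r g2r hZr, pair_neg]
  unfold bg
  have z1 := h.Pg_ot Z
  have z2 := h.Pg_rap hZr
  rw [bil_eq_pair r1 r2 hZr hZ, bil_eq_pair r1 hWr z2 z1, bil_eq_pair r1 r2 z2 z1,
    ← h.Pg_adj g2' hZr, ← h.Pg_adj g1r hZr]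
  ring

theorem bg_skew (h : Md g S R) : bg g V W Z = -bg g V Z W := by
  have o1 := h.Pg_ot V
  unfold bg
  rw [bil_anti (Pg g V) (Pg g W) Z o1, bil_anti (Pg g V) W (Pg g Z) o1,
    bil_anti (Pg g V) (Pg g W) (Pg g Z) o1]
  ring

theorem bg_add (h : Md g S R) (hV : Rap V) {V' : Fam} (hV' : Rap V') (hW : Rap W) (hZ : Rap Z) :
    bg g (fun k => V k + V' k) W Z = bg g V W Z + bg g V' W Z := by
  unfold bg
  rw [h.Pg_add, bil_add1 (h.Pg_rap hV) (h.Pg_rap hV') (h.Pg_rap hW) hZ,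
    bil_add1 (h.Pg_rap hV) (h.Pg_rap hV') hW (h.Pg_rap hZ),
    bil_add1 (h.Pg_rap hV) (h.Pg_rap hV') (h.Pg_rap hW) (h.Pg_rap hZ)]
  ring

theorem bg_smul (h : Md g S R) (a : ℝ) (V W Z : Fam) :
    bg g (fun k => a • V k) W Z = a * bg g V W Z := by
  unfold bg
  rw [h.Pg_smul, bil_smul1, bil_smul1, bil_smul1]
  ring

theorem Pg_zero (h : Md g S R) {N₁ : ℝ} (hb : ∀ i, N₁ ≤ R i) (hV : ∀ k, N₁ ≤ ‖vec k‖ → V k = 0) :
    Pg g V = fun _ => 0 := by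
  funext k
  by_cases hk : ∃ i, k ∈ S i
  · obtain ⟨i, hi⟩ := hk
    unfold Pg
    rw [h.Sy_mem _ hi, h.pair_g]
    have : ∑ p ∈ S i, (inner ℝ (V p) (g i p) : ℝ) = 0 := by
      refine Finset.sum_eq_zero fun p hp => ?_
      rw [hV p (by rw [h.sph i p hp]; exact hb i), inner_zero_left]
    rw [this, zero_smul]
  · push Not at hk
    exact h.Pg_not V hk

theorem bg_thin1 (h : Md g S R) {N₁ : ℝ} (hb : ∀ i, N₁ ≤ R i)
    (hV : ∀ k, N₁ ≤ ‖vec k‖ → V k = 0) : bg g V W Z = 0 := by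
  unfold bg
  rw [Pg_zero h hb hV, bil_z1, bil_z1, bil_z1]
  ring

theorem bg_thin2 (h : Md g S R) {N₁ : ℝ} (hb : ∀ i, N₁ ≤ R i)
    (hW : ∀ k, N₁ ≤ ‖vec k‖ → W k = 0) (hZ : ∀ k, N₁ ≤ ‖vec k‖ → Z k = 0) : bg g V W Z = 0 := by
  unfold bg
  rw [Pg_zero h hb hW, Pg_zero h hb hZ, bil_z2, bil_z3, bil_z3]
  ring

end Pool.Agent.K1H30.OP2
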