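import Pool.Agent.K1H30.OP2.Bg

/-! The cascade for abstract packets. -/

open Set Filter Topology MeasureTheory

set_option autoImplicit false

namespace Pool.Agent.K1H30.OP2

open Pool.Agent.Y5 Pool.Agent.Y5.D Pool.Agent.Y5.E Pool.Agent.K1H54.LO Pool.Agent.K1H54.L2
open Pool.Agent.K1H30.OP (rap_bd rap_sum rap_sq sum0 sum1 sq0 sq1 bd0 sumr l2_nonneg h1_nonneg
  A1_nonneg cs psum rap_add rap_neg ot_add ot_neg pair_add pair_neg trm trm_bd1 trm_bd2 six dsum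
  al be ga trm_eq co_bd)

/-- what is used of the packets -/
structure PP (δ s : ℝ) (c N : ℕ → ℝ) (T : ℕ → Finset Z3) (φ : ℕ → Fam) : Prop where
  supp : ∀ n k, k ∉ T n → φ n k = 0
  ot : ∀ n, OT (φ n)
  nrm : ∀ n, ∑ k ∈ T n, ‖φ n k‖ ^ 2 ≤ 1
  disj : ∀ n n', n ≠ n' → Disjoint (T n) (T n')
  size : ∀ n, ∀ k ∈ T n, N n ≤ ‖vec k‖ ∧ ‖vec k‖ ≤ 2 * N n
  N1 : ∀ n, 1 ≤ N n
  coef : ∀ n k, c n * ‖φ n k‖ ≤ δ * N n ^ s
  c0 : ∀ n, 0 ≤ c n

variable {δ s : ℝ} {c N : ℕ → ℝ} {T T' : ℕ → Finset Z3} {φ χ : ℕ → Fam} {V W Z : Fam}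

namespace PP

theorem pr (h : PP δ s c N T φ) (V : Fam) (n : ℕ) :
    pair V (φ n) = ∑ k ∈ T n, (inner ℝ (V k) (φ n k) : ℝ) := by
  unfold pair
  refine tsum_eq_sum fun k hk => ?_
  rw [h.supp n k hk, inner_zero_right]

theorem norm1 (h : PP δ s c N T φ) (n : ℕ) (k : Z3) : ‖φ n k‖ ≤ 1 := by
  by_cases hk : k ∈ T n
  · have h1 := (Finset.single_le_sum (f := fun k => ‖φ n k‖ ^ 2) (fun _ _ => sq_nonneg _) hk).trans
      (h.nrm n)
    exact (sq_le_one_iff₀ (norm_nonneg _)).1 h1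
  · rw [h.supp n k hk, norm_zero]
    exact zero_le_one

theorem le1 (h : PP δ s c N T φ) (V : Fam) (n : ℕ) : |pair V (φ n)| ≤ ∑ k ∈ T n, ‖V k‖ := by
  rw [h.pr]
  refine (Finset.abs_sum_le_sum_abs _ _).trans (Finset.sum_le_sum fun k _ => ?_)
  refine (abs_real_inner_le_norm _ _).trans ?_
  calc ‖V k‖ * ‖φ n k‖ ≤ ‖V k‖ * 1 := by
        gcongr
        exact h.norm1 n k
    _ = _ := mul_one _

theorem sq (h : PP δ s c N T φ) (V : Fam) (n : ℕ) :
    pair V (φ n) ^ 2 ≤ ∑ k ∈ T n, ‖V k‖ ^ 2 := by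
  have h0 : |pair V (φ n)| ≤ ∑ k ∈ T n, ‖V k‖ * ‖φ n k‖ := by
    rw [h.pr]
    exact (Finset.abs_sum_le_sum_abs _ _).trans
      (Finset.sum_le_sum fun k _ => abs_real_inner_le_norm _ _)
  have h2 := Finset.sum_mul_sq_le_sq_mul_sq (T n) (fun k => ‖V k‖) (fun k => ‖φ n k‖)
  have h3 : 0 ≤ ∑ k ∈ T n, ‖V k‖ ^ 2 := Finset.sum_nonneg fun _ _ => sq_nonneg _
  rw [← sq_abs]
  calc |pair V (φ n)| ^ 2 ≤ (∑ k ∈ T n, ‖V k‖ * ‖φ n k‖) ^ 2 := by gcongr
    _ ≤ (∑ k ∈ T n, ‖V k‖ ^ 2) * ∑ k ∈ T n, ‖φ n k‖ ^ 2 := h2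
    _ ≤ (∑ k ∈ T n, ‖V k‖ ^ 2) * 1 := mul_le_mul_of_nonneg_left (h.nrm n) h3
    _ = _ := mul_one _

theorem add (h : PP δ s c N T φ) (V V' : Fam) (n : ℕ) : pair (fun k => V k + V' k) (φ n) =
    pair V (φ n) + pair V' (φ n) := by
  rw [h.pr, h.pr, h.pr, ← Finset.sum_add_distrib]
  exact Finset.sum_congr rfl fun k _ => inner_add_left _ _ _

theorem smul (h : PP δ s c N T φ) (a : ℝ) (V : Fam) (n : ℕ) : pair (fun k => a • V k) (φ n) =
    a * pair V (φ n) := by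
  rw [h.pr, h.pr, Finset.mul_sum]
  exact Finset.sum_congr rfl fun k _ => real_inner_smul_left _ _ _

theorem thin (h : PP δ s c N T φ) (n : ℕ) {V : Fam} (hV : ∀ k ∈ T n, V k = 0) :
    pair V (φ n) = 0 := by
  rw [h.pr]
  exact Finset.sum_eq_zero fun k hk => by rw [hV k hk, inner_zero_left]

theorem bes (h : PP δ s c N T φ) (hW : Rap W) :
    Summable (fun n => pair W (φ n) ^ 2) ∧ √(∑' n, pair W (φ n) ^ 2) ≤ l2 W := by
  obtain ⟨s1, t1⟩ := dsum h.disj (f := fun k => ‖W k‖ ^ 2) (fun _ => by positivity) (sq0 hW)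
  have s2 : Summable (fun n => pair W (φ n) ^ 2) :=
    Summable.of_nonneg_of_le (fun _ => sq_nonneg _) (fun n => h.sq W n) s1
  refine ⟨s2, Real.sqrt_le_sqrt ?_⟩
  exact (s2.tsum_le_tsum (fun n => h.sq W n) s1).trans t1

theorem bes1 (h : PP δ s c N T φ) (hW : Rap W) :
    Summable (fun n => (N n * pair W (φ n)) ^ 2) ∧
      √(∑' n, (N n * pair W (φ n)) ^ 2) ≤ h1 W := by
  obtain ⟨s1, t1⟩ := dsum h.disj (f := fun k => ‖vec k‖ ^ 2 * ‖W k‖ ^ 2)
    (fun _ => by positivity) (by simpa only [mul_pow] using sq1 hW)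
  have hb : ∀ n, (N n * pair W (φ n)) ^ 2 ≤ ∑ k ∈ T n, ‖vec k‖ ^ 2 * ‖W k‖ ^ 2 := by
    intro n
    have hN := h.N1 n
    rw [mul_pow]
    calc N n ^ 2 * pair W (φ n) ^ 2 ≤ N n ^ 2 * ∑ k ∈ T n, ‖W k‖ ^ 2 := by
          gcongr
          exact h.sq W n
      _ ≤ _ := by
          rw [Finset.mul_sum]
          refine Finset.sum_le_sum fun k hk => ?_
          have := (h.size n k hk).1
          gcongr
  have s2 : Summable (fun n => (N n * pair W (φ n)) ^ 2) :=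
    Summable.of_nonneg_of_le (fun _ => sq_nonneg _) hb s1
  refine ⟨s2, Real.sqrt_le_sqrt ?_⟩
  exact (s2.tsum_le_tsum hb s1).trans t1

theorem shift (h : PP δ s c N T φ) :
    PP δ s (fun n => c (n + 1)) (fun n => N (n + 1)) (fun n => T (n + 1)) (fun n => φ (n + 1)) where
  supp n := h.supp (n + 1)
  ot n := h.ot (n + 1)
  nrm n := h.nrm (n + 1)
  disj n n' hn := h.disj _ _ (by omega)
  size n := h.size (n + 1)
  N1 n := h.N1 (n + 1)
  coef n := h.coef (n + 1)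
  c0 n := h.c0 (n + 1)

theorem bes2 (h : PP δ s c N T φ) (hN : ∀ n, N n ≤ N (n + 1)) (hW : Rap W) :
    Summable (fun n => (N n * pair W (φ (n + 1))) ^ 2) ∧
      √(∑' n, (N n * pair W (φ (n + 1))) ^ 2) ≤ h1 W := by
  obtain ⟨s1, t1⟩ := h.shift.bes1 hW
  have hb : ∀ n, (N n * pair W (φ (n + 1))) ^ 2 ≤ (N (n + 1) * pair W (φ (n + 1))) ^ 2 := by
    intro n
    have h1 := h.N1 n
    rw [mul_pow, mul_pow]
    have := hN n
    gcongr
  have s2 : Summable (fun n => (N n * pair W (φ (n + 1))) ^ 2) :=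
    Summable.of_nonneg_of_le (fun _ => sq_nonneg _) hb s1
  exact ⟨s2, (Real.sqrt_le_sqrt (s2.tsum_le_tsum hb s1)).trans t1⟩

theorem co (h : PP δ s c N T φ) (V : Fam) (n : ℕ) :
    c n * |pair V (φ n)| ≤ δ * (N n ^ s * ∑ k ∈ T n, ‖V k‖) := by
  rw [h.pr]
  calc c n * |∑ k ∈ T n, (inner ℝ (V k) (φ n k) : ℝ)|
      ≤ c n * ∑ k ∈ T n, ‖V k‖ * ‖φ n k‖ := by
        refine mul_le_mul_of_nonneg_left ?_ (h.c0 n)
        exact (Finset.abs_sum_le_sum_abs _ _).trans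
          (Finset.sum_le_sum fun k _ => abs_real_inner_le_norm _ _)
    _ = ∑ k ∈ T n, ‖V k‖ * (c n * ‖φ n k‖) := by
        rw [Finset.mul_sum]
        exact Finset.sum_congr rfl fun k _ => by ring
    _ ≤ ∑ k ∈ T n, ‖V k‖ * (δ * N n ^ s) :=
        Finset.sum_le_sum fun k _ => mul_le_mul_of_nonneg_left (h.coef n k) (norm_nonneg _)
    _ = _ := by rw [← Finset.sum_mul]; ring

theorem co1 (h : PP δ s c N T φ) (hδ : 0 ≤ δ) (hs : s ≤ 1) (hV : Rap V) (n : ℕ) :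
    c n * |pair V (φ n)| ≤ δ * A1 1 V := by
  refine (h.co V n).trans (mul_le_mul_of_nonneg_left ?_ hδ)
  have hN := h.N1 n
  calc N n ^ s * ∑ k ∈ T n, ‖V k‖ ≤ ∑ k ∈ T n, ‖vec k‖ ^ (1 : ℝ) * ‖V k‖ := by
        rw [Finset.mul_sum]
        refine Finset.sum_le_sum fun k hk => ?_
        have h5 := (h.size n k hk).1
        have h6 : N n ^ s ≤ ‖vec k‖ ^ (1 : ℝ) :=
          (Real.rpow_le_rpow_of_exponent_le hN hs).trans
            (Real.rpow_le_rpow (by linarith) h5 zero_le_one)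
        gcongr
    _ ≤ _ := (sumr hV le_rfl).sum_le_tsum _ fun _ _ => by positivity

theorem co2 (h : PP δ s c N T φ) (hδ : 0 ≤ δ) (hs0 : 1 / 2 ≤ s) (hs : s ≤ 1) (hV : Rap V)
    (n : ℕ) : c n * |pair V (φ n)| ≤ (3 / 2 * δ * A1 (s - 1) V) * N n := by
  have hN := h.N1 n
  have hN0 : 0 < N n := by linarith
  have e1 : N n ^ s * ∑ k ∈ T n, ‖V k‖ ≤ 3 / 2 * N n * ∑ k ∈ T n, ‖vec k‖ ^ (s - 1) * ‖V k‖ := by
    rw [Finset.mul_sum, Finset.mul_sum]
    refine Finset.sum_le_sum fun k hk => ?_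
    have h5 := h.size n k hk
    have hk0 : 0 < ‖vec k‖ := by linarith [h5.1]
    have h6 : (2 * N n) ^ (s - 1) ≤ ‖vec k‖ ^ (s - 1) :=
      Real.rpow_le_rpow_of_nonpos hk0 h5.2 (by linarith)
    have h7 : N n ^ s = N n * N n ^ (s - 1) := by
      rw [← Real.rpow_one_add' hN0.le (by linarith)]
      congr 1
      ring
    have h8 : (2 * N n) ^ (s - 1) = 2 ^ (s - 1) * N n ^ (s - 1) :=
      Real.mul_rpow (by norm_num) hN0.le
    have h9 : (2 / 3 : ℝ) ≤ 2 ^ (s - 1) := by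
      have a1 : (2 : ℝ) ^ (-(1 / 2) : ℝ) ≤ 2 ^ (s - 1) :=
        Real.rpow_le_rpow_of_exponent_le (by norm_num) (by linarith)
      refine le_trans ?_ a1
      rw [Real.rpow_neg (by norm_num), ← Real.sqrt_eq_rpow, le_inv_comm₀ (by norm_num)
        (by positivity), Real.sqrt_le_left (by norm_num)]
      norm_num
    have h10 : N n ^ (s - 1) ≤ 3 / 2 * ‖vec k‖ ^ (s - 1) := by
      have a2 : 2 / 3 * N n ^ (s - 1) ≤ 2 ^ (s - 1) * N n ^ (s - 1) := by gcongr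
      linarith
    rw [h7]
    calc N n * N n ^ (s - 1) * ‖V k‖ ≤ N n * (3 / 2 * ‖vec k‖ ^ (s - 1)) * ‖V k‖ := by gcongr
      _ = _ := by ring
  have e2 : ∑ k ∈ T n, ‖vec k‖ ^ (s - 1) * ‖V k‖ ≤ A1 (s - 1) V :=
    (sumr hV (by linarith)).sum_le_tsum _ fun _ _ => by positivity
  calc c n * |pair V (φ n)| ≤ δ * (N n ^ s * ∑ k ∈ T n, ‖V k‖) := h.co V n
    _ ≤ δ * (3 / 2 * N n * A1 (s - 1) V) := by
        refine mul_le_mul_of_nonneg_left (e1.trans ?_) hδ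
        gcongr
    _ = _ := by ring

/-- the sums of the polynomially weighted coefficients -/
theorem wsum (h : PP δ s c N T φ) (hV : Rap V) (j : ℕ) :
    Summable (fun n => N n ^ j * |pair V (φ n)|) := by
  have h1 := (dsum h.disj (f := fun k => (1 + ‖vec k‖) ^ j * ‖V k‖) (fun _ => by positivity)
    (rap_sum hV j)).1
  refine Summable.of_nonneg_of_le (fun n => ?_) (fun n => ?_) h1
  · have := h.N1 n
    positivity
  · have hN := h.N1 n
    calc N n ^ j * |pair V (φ n)| ≤ N n ^ j * ∑ k ∈ T n, ‖V k‖ := by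
          gcongr
          exact h.le1 V n
      _ ≤ _ := by
          rw [Finset.mul_sum]
          refine Finset.sum_le_sum fun k hk => ?_
          have h5 := (h.size n k hk).1
          gcongr
          linarith

theorem leL (h : PP δ s c N T φ) (hW : Rap W) (n : ℕ) : |pair W (φ n)| ≤ l2 W := by
  unfold l2
  apply Real.abs_le_sqrt
  exact (h.sq W n).trans ((sq0 hW).sum_le_tsum _ fun _ _ => sq_nonneg _)

theorem wk (h : PP δ s c N T φ) (M n : ℕ) (k : Z3) :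
    ‖vec k‖ ^ M * ‖φ n k‖ ≤ 2 ^ M * N n ^ M := by
  have hN := h.N1 n
  by_cases hk : k ∈ T n
  · have h1 := (h.size n k hk).2
    have h2 := h.norm1 n k
    calc ‖vec k‖ ^ M * ‖φ n k‖ ≤ (2 * N n) ^ M * 1 := by gcongr
      _ = _ := by rw [mul_one, mul_pow]
  · rw [h.supp n k hk, norm_zero, mul_zero]
    positivity

end PP

variable {ε : ℝ}

/-- both packet sequences -/
structure P2 (δ s : ℝ) (c N : ℕ → ℝ) (T T' : ℕ → Finset Z3) (φ χ : ℕ → Fam) : Prop where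
  p : PP δ s c N T φ
  q : PP δ s c N T' χ
  mono : ∀ n, N n ≤ N (n + 1)
  cmono : ∀ n, c n ≤ c (n + 1)

theorem P2.small (h : P2 δ s c N T T' φ χ) (hδ : 0 ≤ δ) (hε : 0 ≤ ε) (hε1 : ε ≤ 1)
    (hs0 : 1 / 2 ≤ s) (hs : s ≤ 1) (hV : Rap V) (hW : Rap W) (hZ : Rap Z) :
    Summable (trm c ε (fun n => pair V (φ n)) (fun n => pair V (χ n))
      (fun n => pair W (φ n)) (fun n => pair W (χ n))
      (fun n => pair Z (φ n)) (fun n => pair Z (χ n))) ∧
    |∑' n, trm c ε (fun n => pair V (φ n)) (fun n => pair V (χ n))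
      (fun n => pair W (φ n)) (fun n => pair W (χ n))
      (fun n => pair Z (φ n)) (fun n => pair Z (χ n)) n| ≤
      6 * (3 / 2 * δ * A1 (s - 1) V) * (h1 W * l2 Z) := by
  have W1 := h.p.bes1 hW
  have W2 := h.q.bes1 hW
  have W3 := h.p.bes2 h.mono hW
  have Z1 := h.p.bes hZ
  have Z2 := h.q.bes hZ
  have Z3 := h.p.shift.bes hZ
  have hA := A1_nonneg (s - 1) V
  refine six (by positivity) _ W1 W2 W2 W3 W1 W2 Z2 Z1 Z3 Z2 Z2 Z1 fun n => ?_
  have h1 := trm_bd1 (c := c) (v := fun n => pair V (φ n)) (v' := fun n => pair V (χ n))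
    (w := fun n => pair W (φ n)) (w' := fun n => pair W (χ n))
    (z := fun n => pair Z (φ n)) (z' := fun n => pair Z (χ n)) hε hε1 (h.p.c0 n)
    (h.p.co2 hδ hs0 hs hV n) (h.q.co2 hδ hs0 hs hV n)
  refine h1.trans (le_of_eq ?_)
  have hN : |N n| = N n := abs_of_nonneg (by linarith [h.p.N1 n])
  simp only [abs_mul, hN]
  ring

theorem P2.low (h : P2 δ s c N T T' φ χ) (hδ : 0 ≤ δ) (hε : 0 ≤ ε) (hε1 : ε ≤ 1)
    (hs : s ≤ 1) (hV : Rap V) (hW : Rap W) (hZ : Rap Z) :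
    |∑' n, trm c ε (fun n => pair V (φ n)) (fun n => pair V (χ n))
      (fun n => pair W (φ n)) (fun n => pair W (χ n))
      (fun n => pair Z (φ n)) (fun n => pair Z (χ n)) n| ≤
      6 * (δ * A1 1 W) * (l2 V * l2 Z) := by
  have V1 := h.p.bes hV
  have V2 := h.q.bes hV
  have Z1 := h.p.bes hZ
  have Z2 := h.q.bes hZ
  have Z3 := h.p.shift.bes hZ
  refine (six (mul_nonneg hδ (A1_nonneg 1 W)) _ V2 V2 V2 V2 V1 V1 Z2 Z1 Z3 Z2 Z2 Z1
    fun n => ?_).2
  refine trm_bd2 hε hε1 (h.p.c0 n) (h.p.co1 hδ hs hW n) (h.q.co1 hδ hs hW n) ?_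
  refine le_trans ?_ (h.p.co1 hδ hs hW (n + 1))
  exact mul_le_mul_of_nonneg_right (h.cmono n) (abs_nonneg _)

/-! ### The field of the cascade -/

noncomputable def GT (α β γ : ℕ → ℝ) (φ χ : ℕ → Fam) : Fam := fun k =>
  ∑' n, (α n • φ n k + β n • χ n k + γ n • φ (n + 1) k)

variable {α β γ : ℕ → ℝ}

theorem gt_bd (h : P2 δ s c N T T' φ χ) (M n : ℕ) (k : Z3) :
    ‖vec k‖ ^ M * ‖α n • φ n k + β n • χ n k + γ n • φ (n + 1) k‖ ≤
      2 ^ M * (|α n| * N n ^ M + |β n| * N n ^ M + |γ n| * N (n + 1) ^ M) := by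
  have h1 := h.p.wk M n k
  have h2 := h.q.wk M n k
  have h3 := h.p.wk M (n + 1) k
  calc _ ≤ ‖vec k‖ ^ M * (‖α n • φ n k‖ + ‖β n • χ n k‖ + ‖γ n • φ (n + 1) k‖) := by
        gcongr
        exact (norm_add_le _ _).trans (add_le_add (norm_add_le _ _) le_rfl)
    _ = |α n| * (‖vec k‖ ^ M * ‖φ n k‖) + |β n| * (‖vec k‖ ^ M * ‖χ n k‖) +
        |γ n| * (‖vec k‖ ^ M * ‖φ (n + 1) k‖) := by
        rw [norm_smul, norm_smul, norm_smul, Real.norm_eq_abs, Real.norm_eq_abs,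
          Real.norm_eq_abs]
        ring
    _ ≤ |α n| * (2 ^ M * N n ^ M) + |β n| * (2 ^ M * N n ^ M) +
        |γ n| * (2 ^ M * N (n + 1) ^ M) := by gcongr
    _ = _ := by ring

theorem gt_sum0 (h : P2 δ s c N T T' φ χ)
    (hs : ∀ M : ℕ, Summable (fun n => |α n| * N n ^ M + |β n| * N n ^ M + |γ n| * N (n + 1) ^ M))
    (k : Z3) : Summable (fun n => α n • φ n k + β n • χ n k + γ n • φ (n + 1) k) := by
  refine Summable.of_norm_bounded (hs 0) fun n => ?_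
  have := gt_bd (α := α) (β := β) (γ := γ) h 0 n k
  simpa using this

theorem gt_rap (h : P2 δ s c N T T' φ χ)
    (hs : ∀ M : ℕ, Summable (fun n => |α n| * N n ^ M + |β n| * N n ^ M +
      |γ n| * N (n + 1) ^ M)) : Rap (GT α β γ φ χ) := by
  intro M
  refine ⟨∑' n, 2 ^ M * (|α n| * N n ^ M + |β n| * N n ^ M + |γ n| * N (n + 1) ^ M),
    fun k => ?_⟩
  have s0 := (gt_sum0 h hs k).norm
  have s1 := s0.mul_left (‖vec k‖ ^ M)
  calc ‖vec k‖ ^ M * ‖GT α β γ φ χ k‖ ≤ ‖vec k‖ ^ M * ∑' n,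
        ‖α n • φ n k + β n • χ n k + γ n • φ (n + 1) k‖ := by
        refine mul_le_mul_of_nonneg_left ?_ (by positivity)
        exact norm_tsum_le_tsum_norm s0
    _ = ∑' n, ‖vec k‖ ^ M * ‖α n • φ n k + β n • χ n k + γ n • φ (n + 1) k‖ := by
        rw [tsum_mul_left]
    _ ≤ _ := s1.tsum_le_tsum (fun n => gt_bd h M n k) ((hs M).mul_left _)

theorem gt_ot (h : P2 δ s c N T T' φ χ)
    (hs : ∀ M : ℕ, Summable (fun n => |α n| * N n ^ M + |β n| * N n ^ M +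
      |γ n| * N (n + 1) ^ M)) : OT (GT α β γ φ χ) := by
  refine ⟨fun k => ?_, fun k => ?_⟩
  · unfold GT
    rw [← tsum_neg]
    refine tsum_congr fun n => ?_
    rw [(h.p.ot n).odd, (h.q.ot n).odd, (h.p.ot (n + 1)).odd, smul_neg, smul_neg, smul_neg]
    abel
  · unfold GT
    have e := (innerSL ℝ (vec k)).map_tsum (gt_sum0 h hs k)
    rw [innerSL_apply_apply] at e
    rw [e]
    refine (tsum_congr fun n => ?_).trans tsum_zero
    rw [innerSL_apply_apply, inner_add_right, inner_add_right, real_inner_smul_right,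
      real_inner_smul_right, real_inner_smul_right, (h.p.ot n).tan, (h.q.ot n).tan,
      (h.p.ot (n + 1)).tan]
    ring

theorem gt_pair (h : P2 δ s c N T T' φ χ)
    (hs : ∀ M : ℕ, Summable (fun n => |α n| * N n ^ M + |β n| * N n ^ M +
      |γ n| * N (n + 1) ^ M)) (hZ : Rap Z) :
    pair (GT α β γ φ χ) Z = ∑' n, (α n * pair Z (φ n) +
      β n * pair Z (χ n) + γ n * pair Z (φ (n + 1))) := by
  have e1 : ∀ k, (inner ℝ (GT α β γ φ χ k) (Z k) : ℝ) = ∑' n,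
      (inner ℝ (α n • φ n k + β n • χ n k + γ n • φ (n + 1) k) (Z k) : ℝ) := by
    intro k
    have e := (innerSL ℝ (Z k)).map_tsum (gt_sum0 h hs k)
    rw [innerSL_apply_apply] at e
    unfold GT
    rw [real_inner_comm, e]
    refine tsum_congr fun n => ?_
    rw [innerSL_apply_apply, real_inner_comm]
  unfold pair
  rw [tsum_congr e1]
  have s0 := hs 0
  have s2 : Summable (fun q : Z3 × ℕ => ‖Z q.1‖ *
      (|α q.2| * N q.2 ^ 0 + |β q.2| * N q.2 ^ 0 + |γ q.2| * N (q.2 + 1) ^ 0)) :=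
    (sum0 hZ).mul_of_nonneg s0 (fun _ => norm_nonneg _) (fun _ => by positivity)
  have s1 : Summable (Function.uncurry fun (k : Z3) (n : ℕ) =>
      (inner ℝ (α n • φ n k + β n • χ n k + γ n • φ (n + 1) k) (Z k) : ℝ)) := by
    refine Summable.of_norm_bounded s2 fun q => ?_
    obtain ⟨k, n⟩ := q
    have h1 := gt_bd (α := α) (β := β) (γ := γ) h 0 n k
    simp only [pow_zero, one_mul] at h1
    simp only [Function.uncurry_apply_pair, pow_zero]
    refine (norm_inner_le_norm _ _).trans ?_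
    rw [mul_comm]
    gcongr
  rw [← s1.tsum_comm]
  refine tsum_congr fun n => ?_
  have f1 : ∀ {T : ℕ → Finset Z3} {φ : ℕ → Fam}, PP δ s c N T φ → ∀ n,
      Summable (fun k => (inner ℝ (φ n k) (Z k) : ℝ)) := by
    intro T φ hp n
    refine summable_of_ne_finset_zero (s := T n) fun k hk => ?_
    rw [hp.supp n k hk, inner_zero_left]
  have g1 := (f1 h.p n).mul_left (α n)
  have g2 := (f1 h.q n).mul_left (β n)
  have g3 := (f1 h.p (n + 1)).mul_left (γ n)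
  have e2 : ∀ k, (inner ℝ (α n • φ n k + β n • χ n k + γ n • φ (n + 1) k) (Z k) : ℝ) =
      α n * inner ℝ (φ n k) (Z k) + β n * inner ℝ (χ n k) (Z k) +
        γ n * inner ℝ (φ (n + 1) k) (Z k) := fun k => by
    rw [inner_add_left, inner_add_left, real_inner_smul_left, real_inner_smul_left,
      real_inner_smul_left]
  rw [tsum_congr e2, (g1.add g2).tsum_add g3, g1.tsum_add g2, tsum_mul_left, tsum_mul_left,
    tsum_mul_left]
  simp only [real_inner_comm]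

theorem P2.range (h : P2 δ s c N T T' φ χ) (hε : 0 ≤ ε) (hε1 : ε ≤ 1) {P Q : ℝ}
    (hQ : 0 ≤ Q) (hc : ∀ n, c n ≤ P * N n ^ 4) (hQ' : ∀ n, N (n + 1) ≤ Q * N n ^ 4)
    (hV : Rap V) (hW : Rap W) :
    ∃ G, OT G ∧ Rap G ∧ ∀ Z, OT Z → Rap Z →
      ∑' n, trm c ε (fun n => pair V (φ n)) (fun n => pair V (χ n))
      (fun n => pair W (φ n)) (fun n => pair W (χ n))
      (fun n => pair Z (φ n)) (fun n => pair Z (χ n)) n = pair G Z := by
  obtain ⟨v, hv⟩ : ∃ v : ℕ → ℝ, v = fun n => pair V (φ n) := ⟨_, rfl⟩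
  obtain ⟨v', hv'⟩ : ∃ v : ℕ → ℝ, v = fun n => pair V (χ n) := ⟨_, rfl⟩
  obtain ⟨w, hw⟩ : ∃ v : ℕ → ℝ, v = fun n => pair W (φ n) := ⟨_, rfl⟩
  obtain ⟨w', hw'⟩ : ∃ v : ℕ → ℝ, v = fun n => pair W (χ n) := ⟨_, rfl⟩
  have key : ∀ M : ℕ, Summable (fun n => |al c ε v v' w' n| * N n ^ M +
      |be c ε v v' w n| * N n ^ M + |ga c v' w' n| * N (n + 1) ^ M) := by
    intro M
    have sA := (h.p.wsum hV (4 * M + 4))
    have sB := (h.q.wsum hV (4 * M + 4))
    have s := (sA.add sB).mul_left (4 * l2 W * P * (1 + Q ^ M))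
    refine Summable.of_nonneg_of_le (fun n => ?_) (fun n => ?_) s
    · have := h.p.N1 n
      have := h.p.N1 (n + 1)
      positivity
    · have n1 := h.p.N1 n
      have n2 := h.p.N1 (n + 1)
      have hcn : 0 ≤ c n := h.p.c0 n
      have hb := co_bd (v := v) (v' := v') (w := w) (w' := w') (n := n) (c := c) hε hε1 hcn
        (P := P) (x := N n ^ 4) (L := l2 W) (hc n)
        (by rw [hw]; exact h.p.leL hW n) (by rw [hw']; exact h.q.leL hW n)
        (by rw [hw]; exact h.p.leL hW (n + 1))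
      have e1 : N n ^ M ≤ (1 + Q ^ M) * N n ^ (4 * M) := by
        calc N n ^ M ≤ 1 * N n ^ (4 * M) := by
              rw [one_mul]
              exact pow_le_pow_right₀ n1 (by omega)
          _ ≤ _ := by
              gcongr
              have : 0 ≤ Q ^ M := by positivity
              linarith
      have e2 : N (n + 1) ^ M ≤ (1 + Q ^ M) * N n ^ (4 * M) := by
        calc N (n + 1) ^ M ≤ (Q * N n ^ 4) ^ M := by
              gcongr
              exact hQ' n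
          _ = Q ^ M * N n ^ (4 * M) := by rw [mul_pow, ← pow_mul]
          _ ≤ _ := by
              gcongr
              linarith
      have hl := l2_nonneg W
      calc |al c ε v v' w' n| * N n ^ M + |be c ε v v' w n| * N n ^ M +
            |ga c v' w' n| * N (n + 1) ^ M
          ≤ |al c ε v v' w' n| * ((1 + Q ^ M) * N n ^ (4 * M)) +
            |be c ε v v' w n| * ((1 + Q ^ M) * N n ^ (4 * M)) +
            |ga c v' w' n| * ((1 + Q ^ M) * N n ^ (4 * M)) := by gcongr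
        _ = (|al c ε v v' w' n| + |be c ε v v' w n| + |ga c v' w' n|) *
            ((1 + Q ^ M) * N n ^ (4 * M)) := by ring
        _ ≤ (4 * l2 W * P * (N n ^ 4 * |v n| + N n ^ 4 * |v' n|)) *
            ((1 + Q ^ M) * N n ^ (4 * M)) := by gcongr
        _ = _ := by
            rw [hv, hv']
            ring
  refine ⟨GT (al c ε v v' w') (be c ε v v' w) (ga c v' w') φ χ, gt_ot h key,
    gt_rap h key, fun Z hZ hZr => ?_⟩
  rw [gt_pair h key hZr]
  refine tsum_congr fun n => ?_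
  rw [trm_eq, hv, hv', hw, hw']

end Pool.Agent.K1H30.OP2
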