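import Pool.Agent.K1H30.OP2.Fin2
import Pool.Agent.K1H21.LO.Ex

/-! From the modes to the Fourier coefficients, version 2 (`S_EX2`). -/

open Set Topology MeasureTheory
open Filter hiding ker

set_option autoImplicit false

namespace Pool.Agent.K1H30.OP2

open Pool.Agent.Y5 Pool.Agent.Y5.D Pool.Agent.Y5.E Pool.Agent.K1H54.LO Pool.Agent.K1H54.L2
open Pool.Agent.K1H21.LO (SF SS UU mem_SF mem_SS mem_UU sub_UU sum_UU sum_SS am_sum am_eq bl_ker bb)

section modes

variable {I : Type} {g : I → Fam} {S : I → Finset Z3} {R : I → ℝ} {Z : Fam}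

theorem Md.inner_self (h : Md g S R) (i : I) :
    ∑ k ∈ S i, (inner ℝ (g i k) (g i k) : ℝ) = 1 := by
  have hm := h.card i
  have : ∀ k ∈ S i, (inner ℝ (g i k) (g i k) : ℝ) = ((S i).card : ℝ)⁻¹ := by
    intro k hk
    rw [real_inner_self_eq_norm_sq, h.norm hk, inv_pow, Real.sq_sqrt hm.le]
  rw [Finset.sum_congr rfl this, Finset.sum_const, nsmul_eq_mul, mul_inv_cancel₀ hm.ne']

/-- the amplitudes of a synthesis -/
theorem Md.pair_Sy_g (h : Md g S R) (w : I → ℝ) (i : I) : pair (Sy g w) (g i) = w i := by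
  rw [h.pair_g]
  have : ∀ k ∈ S i, (inner ℝ (Sy g w k) (g i k) : ℝ) = w i * (inner ℝ (g i k) (g i k) : ℝ) := by
    intro k hk
    rw [h.Sy_mem _ hk, real_inner_smul_left]
  rw [Finset.sum_congr rfl this, ← Finset.mul_sum, h.inner_self, mul_one]

theorem Md.Pg_Sy (h : Md g S R) (w : I → ℝ) : Pg g (Sy g w) = Sy g w := by
  unfold Pg
  congr 1
  funext i
  exact h.pair_Sy_g w i

theorem Md.bg_Sy (h : Md g S R) (w : I → ℝ) (Z : Fam) :
    bg g (Sy g w) (Sy g w) Z = -bil (Sy g w) (Sy g w) Z := by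
  unfold bg
  rw [h.Pg_Sy]
  ring

theorem Md.norm_Sy (h : Md g S R) (w : I → ℝ) {i : I} {k : Z3} (hk : k ∈ S i) :
    ‖Sy g w k‖ ≤ |w i| := by
  rw [h.Sy_mem _ hk, norm_smul, Real.norm_eq_abs, h.norm hk]
  refine mul_le_of_le_one_right (abs_nonneg _) ?_
  apply inv_le_one_of_one_le₀
  rw [Real.one_le_sqrt]
  exact_mod_cast Finset.card_pos.2 (h.ne i)

/-- the modes which touch the support of `Z` -/
theorem Md.fin_touch (h : Md g S R) (hZf : {k | Z k ≠ 0}.Finite) :
    {i | ∃ k ∈ S i, Z k ≠ 0}.Finite := by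
  classical
  have hc : ∀ i, ∃ k, (∃ k ∈ S i, Z k ≠ 0) → k ∈ S i ∧ Z k ≠ 0 := by
    intro i
    by_cases hi : ∃ k ∈ S i, Z k ≠ 0
    · obtain ⟨k, hk, hz⟩ := hi
      exact ⟨k, fun _ => ⟨hk, hz⟩⟩
    · exact ⟨0, fun h => absurd h hi⟩
  choose f hf using hc
  refine Set.Finite.of_finite_image (f := f) ?_ ?_
  · refine hZf.subset ?_
    rintro k ⟨i, hi, rfl⟩
    exact (hf i hi).2
  · intro i hi j hj hij
    refine h.uniq (hf i hi).1 ?_
    rw [hij]
    exact (hf j hj).1

theorem Md.pair_g_zero (h : Md g S R) {i : I} (hi : ∀ k ∈ S i, Z k = 0) : pair (g i) Z = 0 := by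
  rw [pair_comm, h.pair_g]
  refine Finset.sum_eq_zero fun k hk => ?_
  rw [hi k hk, inner_zero_left]

/-- pairing with a finite family -/
theorem Md.pair_Sy (h : Md g S R) (w : I → ℝ) (hZf : {k | Z k ≠ 0}.Finite) (J : Finset I)
    (hJ : ∀ i, (∃ k ∈ S i, Z k ≠ 0) → i ∈ J) :
    pair (Sy g w) Z = ∑ i ∈ J, w i * pair (g i) Z := by
  classical
  have e1 : ∀ k, Z k ≠ 0 → Sy g w k = ∑ i ∈ J, w i • g i k := by
    intro k hk
    unfold Sy
    refine tsum_eq_sum fun i hi => ?_
    rw [h.not, smul_zero]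
    intro h1
    exact hi (hJ i ⟨k, h1, hk⟩)
  have e2 : ∀ V : Fam, pair V Z = ∑ k ∈ hZf.toFinset, (inner ℝ (V k) (Z k) : ℝ) := by
    intro V
    unfold pair
    refine tsum_eq_sum fun k hk => ?_
    rw [Set.Finite.mem_toFinset, Set.mem_ofPred_eq, not_not] at hk
    rw [hk, inner_zero_right]
  rw [e2]
  simp only [e2]
  have e3 : ∀ k ∈ hZf.toFinset, (inner ℝ (Sy g w k) (Z k) : ℝ) =
      ∑ i ∈ J, w i * (inner ℝ (g i k) (Z k) : ℝ) := by
    intro k hk
    rw [Set.Finite.mem_toFinset, Set.mem_ofPred_eq] at hk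
    rw [e1 k hk, sum_inner]
    exact Finset.sum_congr rfl fun i _ => real_inner_smul_left _ _ _
  rw [Finset.sum_congr rfl e3, Finset.sum_comm]
  exact Finset.sum_congr rfl fun i _ => (Finset.mul_sum _ _ _).symm

end modes

section casc

variable {I : Type} {sh : I → ℕ} {ty : I → Bool} {ρ : ℕ → ℕ} {g : I → Fam}
  {S : I → Finset Z3} {R : I → ℝ} {Z : Fam} {c₀ lam ε : ℝ}

theorem am_pair (h : Md g S R) (hS : Shl sh ty ρ) (hZf : {k | Z k ≠ 0}.Finite) (b : Bool) (n : ℕ) :
    am sh ty ρ b n (fun i => pair (g i) Z) = pair (Sy g (fv sh ty ρ b n)) Z := by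
  classical
  have hf := h.fin_touch hZf
  rw [h.pair_Sy _ hZf (hf.toFinset ∪ SF hS b n)
    (fun i hi => Finset.mem_union_left _ (by rw [Set.Finite.mem_toFinset]; exact hi)), am_sum hS]
  refine Finset.sum_subset Finset.subset_union_right fun i _ hi => ?_
  rw [Pool.Agent.K1H21.LO.fv_zero hS b n i hi, zero_mul]

theorem Sy_fin (h : Md g S R) {w : I → ℝ} (hw : {i | w i ≠ 0}.Finite) :
    {k | Sy g w k ≠ 0}.Finite := by
  refine (hw.biUnion (t := fun i => (S i : Set Z3)) fun i _ => (S i).finite_toSet).subset ?_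
  intro k hk
  by_cases h1 : ∃ i, k ∈ S i
  · obtain ⟨i, hi⟩ := h1
    rw [Set.mem_iUnion₂]
    refine ⟨i, ?_, hi⟩
    intro h2
    apply hk
    show Sy g w k = 0
    rw [h.Sy_mem _ hi, h2, zero_smul]
  · push Not at h1
    exact absurd (h.Sy_not _ h1) hk

theorem am_Sy (h : Md g S R) (hS : Shl sh ty ρ) (z : I → ℝ) (b : Bool) (n : ℕ) :
    pair (Sy g z) (Sy g (fv sh ty ρ b n)) = am sh ty ρ b n z := by
  classical
  have hf : {i : I | fv sh ty ρ b n i ≠ 0}.Finite := by
    refine (SF hS b n).finite_toSet.subset fun i hi => ?_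
    by_contra h2
    exact hi (Pool.Agent.K1H21.LO.fv_zero hS b n i h2)
  rw [h.pair_Sy z (Sy_fin h hf) (SF hS b n), am_sum hS]
  · refine Finset.sum_congr rfl fun i _ => ?_
    rw [pair_comm, h.pair_Sy_g, mul_comm]
  · rintro i ⟨k, hk, h1⟩
    by_contra h2
    apply h1
    rw [h.Sy_mem _ hk, Pool.Agent.K1H21.LO.fv_zero hS b n i h2, zero_smul]

/-- the cascade, in terms of the modes -/
theorem bT_Sy (h : Md g S R) (hS : Shl sh ty ρ) (z : I → ℝ) (J : Finset I)
    (hZf : {k | Z k ≠ 0}.Finite) (hJ : ∀ i, (∃ k ∈ S i, Z k ≠ 0) → i ∈ J) :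
    bT lam ε c₀ (fun n => Sy g (fv sh ty ρ true n)) (fun n => Sy g (fv sh ty ρ false n))
      (Sy g z) (Sy g z) Z = ∑ i ∈ J, bl (ker sh ty ρ lam ε c₀) z z i * pair (g i) Z := by
  classical
  obtain ⟨K, hK⟩ := sub_UU hS J
  set γ : I → ℝ := fun i => pair (g i) Z with hg
  have hg0 : ∀ i, i ∉ J → γ i = 0 := by
    intro i hi
    refine h.pair_g_zero fun k hk => ?_
    by_contra h2
    exact hi (hJ i ⟨k, hk, h2⟩)
  have hPQ : ∀ b n, pair Z (Sy g (fv sh ty ρ b n)) = am sh ty ρ b n γ := by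
    intro b n
    rw [hg, am_pair h hS hZf, pair_comm]
  have hz : ∀ b n, K ≤ n → am sh ty ρ b n γ = 0 := by
    intro b n hn
    rw [am_sum hS]
    refine Finset.sum_eq_zero fun i hi => ?_
    have h2 : i ∉ J := by
      intro h3
      have h4 := mem_UU hS K i (hK h3)
      rw [mem_SF] at hi
      omega
    rw [hg0 i h2, mul_zero]
  have e1 : bT lam ε c₀ (fun n => Sy g (fv sh ty ρ true n)) (fun n => Sy g (fv sh ty ρ false n))
      (Sy g z) (Sy g z) Z =
      ∑ n ∈ Finset.range K, c₀ * lam ^ n * (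
        am sh ty ρ false n z * (am sh ty ρ true n z * am sh ty ρ false n γ -
          am sh ty ρ false n z * am sh ty ρ true n γ)
        + am sh ty ρ false n z * (am sh ty ρ false n z * am sh ty ρ true (n + 1) γ -
          am sh ty ρ true (n + 1) z * am sh ty ρ false n γ)
        + ε * (am sh ty ρ true n z * (am sh ty ρ true n z * am sh ty ρ false n γ -
          am sh ty ρ false n z * am sh ty ρ true n γ))) := by
    unfold bT
    simp only [hPQ, am_Sy h hS]
    refine tsum_eq_sum fun n hn => ?_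
    rw [Finset.mem_range, not_lt] at hn
    rw [hz true n hn, hz false n hn, hz true (n + 1) (by omega)]
    ring
  have e2 : ∑ i ∈ J, bl (ker sh ty ρ lam ε c₀) z z i * γ i =
      ∑ n ∈ Finset.range K, (bb sh ty ρ lam ε c₀ true n z z * am sh ty ρ true n γ +
        bb sh ty ρ lam ε c₀ false n z z * am sh ty ρ false n γ) := by
    rw [Finset.sum_subset hK (fun i _ hi => by rw [hg0 i hi, mul_zero]), sum_UU]
    refine Finset.sum_congr rfl fun n _ => ?_
    rw [sum_SS, am_eq hS, am_eq hS, Finset.mul_sum, Finset.mul_sum, Finset.mul_sum,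
      Finset.mul_sum]
    congr 1
    · refine Finset.sum_congr rfl fun i hi => ?_
      rw [mem_SF] at hi
      rw [bl_ker hS, hi.1, hi.2]
      ring
    · refine Finset.sum_congr rfl fun i hi => ?_
      rw [mem_SF] at hi
      rw [bl_ker hS, hi.1, hi.2]
      ring
  show _ = ∑ i ∈ J, bl (ker sh ty ρ lam ε c₀) z z i * γ i
  rw [e1, e2]
  -- telescoping
  set F : ℕ → ℝ := fun n => (if n = 0 then 0 else c₀ * lam ^ (n - 1) *
      (am sh ty ρ false (n - 1) z * am sh ty ρ false (n - 1) z)) * am sh ty ρ true n γ with hF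
  have e3 : ∑ n ∈ Finset.range K, (F (n + 1) - F n) = 0 := by
    rw [Finset.sum_range_sub]
    simp only [hF]
    rw [hz true K le_rfl]
    simp
  rw [← add_zero (∑ n ∈ Finset.range K, (bb sh ty ρ lam ε c₀ true n z z *
    am sh ty ρ true n γ + bb sh ty ρ lam ε c₀ false n z z * am sh ty ρ false n γ)), ← e3,
    ← Finset.sum_add_distrib]
  refine Finset.sum_congr rfl fun n _ => ?_
  simp only [hF]
  unfold bb
  simp only [Bool.false_eq_true, if_false, if_true, Nat.add_eq_zero_iff, one_ne_zero, and_false,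
    Nat.add_sub_cancel]
  ring

theorem lpD_Sy (h : Md g S R) {D : Z3 → ℝ} {di : I → ℝ} (hD : ∀ i, ∀ k ∈ S i, D k = di i)
    (z : I → ℝ) (J : Finset I)
    (hZf : {k | Z k ≠ 0}.Finite) (hJ : ∀ i, (∃ k ∈ S i, Z k ≠ 0) → i ∈ J) :
    lpD D (Sy g z) Z = ∑ i ∈ J, di i * z i * pair (g i) Z := by
  rw [← h.pair_Sy (fun i => di i * z i) hZf J hJ]
  unfold lpD pair
  refine tsum_congr fun k => ?_
  by_cases hk : ∃ i, k ∈ S i
  · obtain ⟨i, hi⟩ := hk
    rw [h.Sy_mem _ hi, h.Sy_mem _ hi, hD i k hi, mul_smul, real_inner_smul_left, real_inner_smul_left,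
      real_inner_smul_left]
  · push Not at hk
    rw [h.Sy_not _ hk, h.Sy_not _ hk, inner_zero_left, mul_zero]

end casc

theorem t_EX2 : S_EX2 := by
  classical
  intro I sh ty ρ g S R N s N₁ δ c₀ lam ε hδ hN hε hε1 hM D di hDs hD T z hT hs hr
  have h := md_of hM
  have hS := hM.shl
  refine ⟨fun t _ => h.Sy_ot _, ?_, ?_⟩
  · intro p T' hT'
    obtain ⟨M, hMb⟩ := hr p T' hT'
    obtain ⟨X, hX⟩ := hM.grow
    have hlam := hM.lam1
    have hX0 : 0 < X := by
      have h1 := hX 0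
      have h2 := hM.N1 0
      rw [pow_zero, mul_one] at h1
      linarith
    refine ⟨(2 * X) ^ p * √M, fun t ht k => ?_⟩
    obtain ⟨h1, h2⟩ := hMb t ht
    by_cases hk : ∃ i, k ∈ S i
    · obtain ⟨i, hi⟩ := hk
      have h3 : ‖vec k‖ ≤ 2 * X * lam ^ sh i := by
        rw [h.sph i k hi]
        have h5 := (hM.size i).2
        have h6 := hX (sh i)
        linarith
      have h7 : |(lam ^ sh i) ^ p * z i t| ≤ √M := by
        apply Real.abs_le_sqrt
        refine le_trans ?_ h2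
        exact h1.le_tsum i fun _ _ => sq_nonneg _
      have h8 := h.norm_Sy (fun i => z i t) hi
      calc ‖vec k‖ ^ p * ‖Sy g (fun i => z i t) k‖ ≤ (2 * X * lam ^ sh i) ^ p * |z i t| := by
            gcongr
        _ = (2 * X) ^ p * |(lam ^ sh i) ^ p * z i t| := by
            rw [mul_pow, abs_mul, abs_of_pos (a := (lam ^ sh i) ^ p) (by positivity)]
            ring
        _ ≤ _ := by gcongr
    · push Not at hk
      rw [h.Sy_not _ hk, norm_zero, mul_zero]
      positivity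
  · intro Z hZ hZf t ht
    have hf := h.fin_touch hZf
    set J := hf.toFinset with hJdef
    have hJ : ∀ i, (∃ k ∈ S i, Z k ≠ 0) → i ∈ J := fun i hi => by
      rw [hJdef, Set.Finite.mem_toFinset]; exact hi
    have e1 : (fun τ => pair (Sy g (fun i => z i τ)) Z) =
        fun τ => ∑ i ∈ J, z i τ * pair (g i) Z := by
      funext τ
      exact h.pair_Sy _ hZf J hJ
    rw [e1]
    have e2 := HasDerivWithinAt.fun_sum (u := J)
      (fun i _ => (hs.deriv i t ht).mul_const (pair (g i) Z))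
    refine e2.congr_deriv ?_
    unfold bQ
    rw [h.bg_Sy, bT_Sy h hS _ J hZf hJ, lpD_Sy h hD _ J hZf hJ]
    rw [show ∀ a b c : ℝ, -a + b + (-b + c) = -a + c from fun a b c => by ring,
      ← Finset.sum_neg_distrib, ← Finset.sum_add_distrib]
    refine Finset.sum_congr rfl fun i _ => ?_
    ring

end Pool.Agent.K1H30.OP2
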