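import Pool.Agent.K1H30.OP2.Casc2

/-! The bounds of the perturbation, version 2. -/

open Set Filter Topology MeasureTheory

set_option autoImplicit false

namespace Pool.Agent.K1H30.OP2

open Pool.Agent.Y5 Pool.Agent.Y5.D Pool.Agent.Y5.E Pool.Agent.K1H54.LO Pool.Agent.K1H54.L2
open Pool.Agent.K1H30.OP (l2_nonneg h1_nonneg A1_nonneg rap_add ot_add pair_add trm)

variable {I : Type} {sh : I → ℕ} {ty : I → Bool} {ρ : ℕ → ℕ} {g : I → Fam}
  {S : I → Finset Z3} {R : I → ℝ} {N : ℕ → ℝ} {s N₁ δ c₀ lam ε : ℝ}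

theorem md_of (h : MS sh ty ρ g S R N s N₁ δ c₀ lam) : Md g S R where
  ot := h.ot
  supp := h.supp
  flat := h.flat
  disj := h.disj
  ne := h.ne
  sph := h.sph

open Classical in
/-- the frequencies of the packet -/
noncomputable def TT (h : Shl sh ty ρ) (S : I → Finset Z3) (b : Bool) (n : ℕ) : Finset Z3 :=
  (h.fin n b).toFinset.biUnion S

theorem mem_TT {h : Shl sh ty ρ} {b : Bool} {n : ℕ} {k : Z3} :
    k ∈ TT h S b n ↔ ∃ i, (sh i = n ∧ ty i = b) ∧ k ∈ S i := by
  classical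
  unfold TT
  rw [Finset.mem_biUnion]
  refine exists_congr fun i => and_congr ?_ Iff.rfl
  rw [Set.Finite.mem_toFinset]
  exact Iff.rfl

theorem fv_pos {b : Bool} {n : ℕ} {i : I} (hi : sh i = n ∧ ty i = b) :
    fv sh ty ρ b n i = (√(ρ n : ℝ))⁻¹ := by
  unfold fv
  rw [if_pos hi]

theorem fv_zero {b : Bool} {n : ℕ} {i : I} (hi : ¬ (sh i = n ∧ ty i = b)) :
    fv sh ty ρ b n i = 0 := by
  unfold fv
  rw [if_neg hi]

theorem pp_of (h : MS sh ty ρ g S R N s N₁ δ c₀ lam) (hδ : 0 ≤ δ) (b : Bool) :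
    PP δ s (fun n => c₀ * lam ^ n) N (TT h.shl S b) (fun n => Sy g (fv sh ty ρ b n)) where
  supp n k hk := by
    have hm := md_of h
    by_cases h1 : ∃ i, k ∈ S i
    · obtain ⟨i, hi⟩ := h1
      rw [hm.Sy_mem _ hi, fv_zero, zero_smul]
      intro h2
      exact hk (mem_TT.2 ⟨i, h2, hi⟩)
    · push Not at h1
      exact hm.Sy_not _ h1
  ot n := (md_of h).Sy_ot _
  nrm n := by
    classical
    have hm := md_of h
    have hd : ∀ i ∈ (h.shl.fin n b).toFinset, ∀ j ∈ (h.shl.fin n b).toFinset, i ≠ j →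
        Disjoint (S i) (S j) := fun i _ j _ hij => h.disj i j hij
    have hρ : (0 : ℝ) < ρ n := by exact_mod_cast h.shl.pos n
    unfold TT
    rw [Finset.sum_biUnion hd]
    have h1 : ∀ i ∈ (h.shl.fin n b).toFinset,
        ∑ k ∈ S i, ‖Sy g (fv sh ty ρ b n) k‖ ^ 2 = (ρ n : ℝ)⁻¹ := by
      intro i hi
      rw [Set.Finite.mem_toFinset] at hi
      have hc := hm.card i
      have h2 : ∀ k ∈ S i, ‖Sy g (fv sh ty ρ b n) k‖ ^ 2 = (ρ n : ℝ)⁻¹ * ((S i).card : ℝ)⁻¹ := by
        intro k hk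
        rw [hm.Sy_mem _ hk, fv_pos hi, norm_smul, hm.norm hk, mul_pow, norm_inv,
          Real.norm_of_nonneg (Real.sqrt_nonneg _), inv_pow, inv_pow, Real.sq_sqrt hρ.le,
          Real.sq_sqrt hc.le]
      rw [Finset.sum_congr rfl h2, Finset.sum_const, nsmul_eq_mul]
      field_simp
    rw [Finset.sum_congr rfl h1, Finset.sum_const, nsmul_eq_mul]
    have h3 : (h.shl.fin n b).toFinset.card = ρ n := by
      rw [← Set.ncard_eq_toFinset_card _ (h.shl.fin n b), h.shl.card n b]
    rw [h3, mul_inv_cancel₀ hρ.ne']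
  disj n n' hn := by
    rw [Finset.disjoint_left]
    intro k h1 h2
    obtain ⟨i, hi, hk⟩ := mem_TT.1 h1
    obtain ⟨j, hj, hk'⟩ := mem_TT.1 h2
    have := (md_of h).uniq hk hk'
    subst this
    exact hn (hi.1.symm.trans hj.1)
  size n k hk := by
    obtain ⟨i, hi, hk⟩ := mem_TT.1 hk
    have := h.size i
    rw [hi.1] at this
    rw [h.sph i k hk]
    exact this
  N1 := h.N1
  coef n k := by
    have hN : 0 ≤ N n := by linarith [h.N1 n]
    have hm := md_of h
    have h0 : 0 ≤ δ * N n ^ s := by positivity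
    by_cases hk : k ∈ TT h.shl S b n
    · obtain ⟨i, hi, hk⟩ := mem_TT.1 hk
      have hc := hm.card i
      have hρ : (0 : ℝ) < ρ n := by exact_mod_cast h.shl.pos n
      have h1 := h.coef i
      rw [hi.1] at h1
      have h2 : 0 < √(ρ n : ℝ) * √((S i).card : ℝ) :=
        mul_pos (Real.sqrt_pos.2 hρ) (Real.sqrt_pos.2 hc)
      rw [hm.Sy_mem _ hk, fv_pos hi, norm_smul, hm.norm hk, norm_inv,
        Real.norm_of_nonneg (Real.sqrt_nonneg _), ← mul_inv, ← div_eq_mul_inv, div_le_iff₀ h2]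
      exact h1
    · have h3 : Sy g (fv sh ty ρ b n) k = 0 := by
        by_cases h1 : ∃ i, k ∈ S i
        · obtain ⟨i, hi⟩ := h1
          rw [hm.Sy_mem _ hi, fv_zero, zero_smul]
          intro h2
          exact hk (mem_TT.2 ⟨i, h2, hi⟩)
        · push Not at h1
          exact hm.Sy_not _ h1
      rw [h3, norm_zero, mul_zero]
      exact h0
  c0 n := by
    have := h.lam1
    have := h.c0
    positivity

theorem p2_of (h : MS sh ty ρ g S R N s N₁ δ c₀ lam) (hδ : 0 ≤ δ) :
    P2 δ s (fun n => c₀ * lam ^ n) N (TT h.shl S true) (TT h.shl S false)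
      (fun n => Sy g (fv sh ty ρ true n)) (fun n => Sy g (fv sh ty ρ false n)) where
  p := pp_of h hδ true
  q := pp_of h hδ false
  mono := h.mono
  cmono n := by
    have := h.c0
    exact mul_le_mul_of_nonneg_left (pow_le_pow_right₀ h.lam1.le (Nat.le_succ n)) this.le

theorem bT_eq (V W Z : Fam) : bT lam ε c₀ (fun n => Sy g (fv sh ty ρ true n))
    (fun n => Sy g (fv sh ty ρ false n)) V W Z
    = ∑' n, trm (fun n => c₀ * lam ^ n) ε
      (fun n => pair V (Sy g (fv sh ty ρ true n))) (fun n => pair V (Sy g (fv sh ty ρ false n)))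
      (fun n => pair W (Sy g (fv sh ty ρ true n))) (fun n => pair W (Sy g (fv sh ty ρ false n)))
      (fun n => pair Z (Sy g (fv sh ty ρ true n))) (fun n => pair Z (Sy g (fv sh ty ρ false n))) n :=
  rfl

theorem zero_TT (h : MS sh ty ρ g S R N s N₁ δ c₀ lam) {V : Fam}
    (hV : ∀ k, N₁ ≤ ‖vec k‖ → V k = 0) (b : Bool) (n : ℕ) :
    ∀ k ∈ TT h.shl S b n, V k = 0 := by
  intro k hk
  obtain ⟨i, -, hk⟩ := mem_TT.1 hk
  exact hV k (by rw [h.sph i k hk]; exact h.big i)

theorem t_OP2 (hT : S_TRI) : S_OP2 := by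
  intro I sh ty ρ g S R N s N₁ δ c₀ lam ε hs0 hs1 hδ hN₁ hε hε1 h
  have hd : 0 ≤ δ / 40 := by positivity
  have hm := md_of h
  have h2 := p2_of h hd
  have hp := Real.pi_pos
  have hp4 := Real.pi_lt_d2
  -- the main bound
  have main : ∀ V W Z, OT V → Rap V → OT W → Rap W → OT Z → Rap Z →
      |bQ sh ty ρ g lam ε c₀ V W Z| ≤ δ * (A1 (s - 1) V * h1 W) * l2 Z := by
    intro V W Z hV hVr hW hWr hZ hZr
    have e1 := bg_small hT hm (M := δ / 40 * A1 (s - 1) V)
      (mul_nonneg hd (A1_nonneg _ _)) (fun y => hm.Pg_sup hVr hd (by linarith) h.sup y)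
      hVr hW hWr hZ hZr
    have e2 := (h2.small hd hε hε1 hs0.le hs1.le hVr hWr hZr).2
    rw [← bT_eq] at e2
    unfold bQ
    refine (abs_add_le _ _).trans ((add_le_add e1 e2).trans ?_)
    have n1 := A1_nonneg (s - 1) V
    have n2 := h1_nonneg W
    have n3 := l2_nonneg Z
    have n4 : 0 ≤ δ * (A1 (s - 1) V * (h1 W * l2 Z)) := by positivity
    calc 6 * Real.pi * (δ / 40 * A1 (s - 1) V) * (h1 W * l2 Z) +
          6 * (3 / 2 * (δ / 40) * A1 (s - 1) V) * (h1 W * l2 Z)
        = ((6 * Real.pi + 9) / 40) * (δ * (A1 (s - 1) V * (h1 W * l2 Z))) := by ring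
      _ ≤ 1 * (δ * (A1 (s - 1) V * (h1 W * l2 Z))) := by
          refine mul_le_mul_of_nonneg_right ?_ n4
          linarith
      _ = _ := by ring
  refine ⟨⟨6 * Real.pi + 6 * (δ / 40), ?_, ?_, ?_, ?_, ?_, ?_, ?_, ?_⟩, main⟩
  · -- range
    intro V W hV hVr hW hWr
    obtain ⟨G, g1, g2, g3⟩ := bg_range (V := V) (W := W) hm hVr hWr
    obtain ⟨X, hX⟩ := h.poly
    obtain ⟨X', hX'⟩ := h.grow
    have hlam : 0 < lam := by linarith [h.lam1]
    have hc0 := h.c0
    have hc : ∀ n, c₀ * lam ^ n ≤ (c₀ * |X|) * N n ^ 4 := by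
      intro n
      have hN := h.N1 n
      calc c₀ * lam ^ n ≤ c₀ * (X * N n ^ 4) := by
            gcongr
            exact hX n
        _ ≤ c₀ * (|X| * N n ^ 4) := by
            gcongr
            exact le_abs_self X
        _ = _ := by ring
    have hQ : ∀ n, N (n + 1) ≤ (|X'| * lam * |X|) * N n ^ 4 := by
      intro n
      have hN := h.N1 n
      calc N (n + 1) ≤ X' * lam ^ (n + 1) := hX' (n + 1)
        _ ≤ |X'| * lam ^ (n + 1) := by
            gcongr
            exact le_abs_self X'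
        _ = |X'| * lam * lam ^ n := by ring
        _ ≤ |X'| * lam * (X * N n ^ 4) := by
            gcongr
            exact hX n
        _ ≤ |X'| * lam * (|X| * N n ^ 4) := by
            gcongr
            exact le_abs_self X
        _ = _ := by ring
    obtain ⟨G', g1', g2', g3'⟩ := h2.range (V := V) (W := W) hε hε1 (by positivity) hc hQ hVr hWr
    refine ⟨fun k => G k + G' k, ot_add g1 g1', rap_add g2 g2', fun Z hZ hZr => ?_⟩
    unfold bQ
    rw [pair_add g2 g2' hZr, ← g3 Z hZ hZr, ← g3' Z hZ hZr, bT_eq]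
  · -- add1
    intro V V' W Z hV hVr hV' hVr' hW hWr hZ hZr
    have s1 := (h2.small (V := V) hd hε hε1 hs0.le hs1.le hVr hWr hZr).1
    have s2 := (h2.small (V := V') hd hε hε1 hs0.le hs1.le hVr' hWr hZr).1
    unfold bQ
    rw [bg_add hm hVr hVr' hWr hZr, bT_eq, bT_eq, bT_eq]
    have e : (∑' n, trm (fun n => c₀ * lam ^ n) ε
        (fun n => pair (fun k => V k + V' k) (Sy g (fv sh ty ρ true n)))
        (fun n => pair (fun k => V k + V' k) (Sy g (fv sh ty ρ false n)))
        (fun n => pair W (Sy g (fv sh ty ρ true n))) (fun n => pair W (Sy g (fv sh ty ρ false n)))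
        (fun n => pair Z (Sy g (fv sh ty ρ true n)))
        (fun n => pair Z (Sy g (fv sh ty ρ false n))) n) = _ :=
      (tsum_congr fun n => by
        unfold trm
        beta_reduce
        rw [h2.p.add, h2.q.add]
        ring).trans (s1.tsum_add s2)
    rw [e]
    ring
  · -- smul1
    intro a V W Z hV hVr hW hWr hZ hZr
    unfold bQ
    rw [bg_smul hm, bT_eq, bT_eq, mul_add, ← tsum_mul_left]
    congr 1
    refine tsum_congr fun n => ?_
    unfold trm
    beta_reduce
    rw [h2.p.smul, h2.q.smul]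
    ring
  · -- skew
    intro V W Z hV hVr hW hWr hZ hZr
    unfold bQ
    rw [bg_skew hm, bT_eq, bT_eq, neg_add, ← tsum_neg]
    congr 1
    refine tsum_congr fun n => ?_
    unfold trm
    beta_reduce
    ring
  · -- small
    intro V W Z hV hVr hW hWr hZ hZr
    refine (main V W Z hV hVr hW hWr hZ hZr).trans ?_
    have n0 := A1_nonneg s V
    have n1 := A1_nonneg (s - 1) V
    have n2 := h1_nonneg W
    have n3 := l2_nonneg Z
    have n4 := l2_nonneg W
    have : 0 ≤ A1 s V * l2 W := by positivity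
    gcongr
    linarith
  · -- low
    intro V W Z hV hVr hW hWr hZ hZr
    have e1 := bg_low hm hVr hWr hZr
    have e2 := h2.low (ε := ε) hd hε hε1 hs1.le hVr hWr hZr
    rw [← bT_eq] at e2
    unfold bQ
    refine (abs_add_le _ _).trans ((add_le_add e1 e2).trans (le_of_eq ?_))
    ring
  · -- thin1
    intro V W Z hV hVr hW hWr hZ hZr h'
    unfold bQ
    rw [bg_thin1 hm h.big h', bT_eq, zero_add]
    refine (tsum_congr fun n => ?_).trans tsum_zero
    unfold trm
    beta_reduce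
    rw [h2.p.thin n (zero_TT h h' true n), h2.q.thin n (zero_TT h h' false n)]
    ring
  · -- thin2
    intro V W Z hV hVr hW hWr hZ hZr h' h''
    unfold bQ
    rw [bg_thin2 hm h.big h' h'', bT_eq, zero_add]
    refine (tsum_congr fun n => ?_).trans tsum_zero
    unfold trm
    beta_reduce
    rw [h2.p.thin n (zero_TT h h' true n), h2.q.thin n (zero_TT h h' false n),
      h2.p.thin n (zero_TT h h'' true n), h2.q.thin n (zero_TT h h'' false n),
      h2.p.thin (n + 1) (zero_TT h h' true (n + 1))]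
    ring

end Pool.Agent.K1H30.OP2
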