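import Pool.Agent.K1H54.LO.Defs3
import Pool.Agent.K1H30.OP.Fin

/-! Systems of modes: the projection. -/

open Set Filter Topology MeasureTheory

set_option autoImplicit false

namespace Pool.Agent.K1H30.OP2

open Pool.Agent.Y5 Pool.Agent.Y5.D Pool.Agent.Y5.E Pool.Agent.K1H54.LO Pool.Agent.K1H54.L2
open Pool.Agent.K1H30.OP (rap_bd rap_sum rap_sq sum0 sum1 sq0 sq1 bd0 sumr l2_nonneg h1_nonneg
  A1_nonneg cs BB BB_ot BB_rap bil_eq_pair psum rap_add rap_neg ot_add ot_neg pair_add pair_neg)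

/-- what is used of `MS` -/
structure Md {I : Type} (g : I → Fam) (S : I → Finset Z3) (R : I → ℝ) : Prop where
  ot : ∀ i, OT (g i)
  supp : ∀ i k, g i k ≠ 0 → k ∈ S i
  flat : ∀ i, ∀ k ∈ S i, ‖g i k‖ ^ 2 * ((S i).card : ℝ) = 1
  disj : ∀ i j, i ≠ j → Disjoint (S i) (S j)
  ne : ∀ i, (S i).Nonempty
  sph : ∀ i, ∀ k ∈ S i, ‖vec k‖ = R i

variable {I : Type} {g : I → Fam} {S : I → Finset Z3} {R : I → ℝ} {V W Z : Fam}

theorem Md.not (h : Md g S R) {i : I} {k : Z3} (hk : k ∉ S i) : g i k = 0 := by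
  by_contra hc
  exact hk (h.supp i k hc)

theorem Md.card (h : Md g S R) (i : I) : (0 : ℝ) < ((S i).card : ℝ) := by
  exact_mod_cast Finset.card_pos.2 (h.ne i)

theorem Md.norm (h : Md g S R) {i : I} {k : Z3} (hk : k ∈ S i) :
    ‖g i k‖ = (√((S i).card : ℝ))⁻¹ := by
  have h1 := h.flat i k hk
  have h2 := h.card i
  have h3 : ‖g i k‖ ^ 2 = ((√((S i).card : ℝ))⁻¹) ^ 2 := by
    rw [inv_pow, Real.sq_sqrt h2.le, ← one_div, eq_div_iff h2.ne', h1]
  exact (pow_left_inj₀ (norm_nonneg _) (by positivity) two_ne_zero).1 h3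

theorem Md.symm (h : Md g S R) {i : I} {k : Z3} (hk : k ∈ S i) : -k ∈ S i := by
  apply h.supp i
  rw [(h.ot i).odd, neg_ne_zero]
  intro hc
  have := h.flat i k hk
  rw [hc] at this
  simp at this

theorem Md.uniq (h : Md g S R) {i j : I} {k : Z3} (hi : k ∈ S i) (hj : k ∈ S j) : i = j := by
  by_contra hc
  exact Finset.disjoint_left.1 (h.disj i j hc) hi hj

theorem Md.pair_g (h : Md g S R) (V : Fam) (i : I) :
    pair V (g i) = ∑ k ∈ S i, (inner ℝ (V k) (g i k) : ℝ) := by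
  unfold pair
  refine tsum_eq_sum fun k hk => ?_
  rw [h.not hk, inner_zero_right]

theorem Md.pair_g_le (h : Md g S R) (V : Fam) (i : I) :
    |pair V (g i)| ≤ (√((S i).card : ℝ))⁻¹ * ∑ k ∈ S i, ‖V k‖ := by
  rw [h.pair_g, Finset.mul_sum]
  refine (Finset.abs_sum_le_sum_abs _ _).trans (Finset.sum_le_sum fun k hk => ?_)
  refine (abs_real_inner_le_norm _ _).trans ?_
  rw [h.norm hk, mul_comm]

theorem Md.pair_g_sq (h : Md g S R) (V : Fam) (i : I) :
    pair V (g i) ^ 2 ≤ ∑ k ∈ S i, ‖V k‖ ^ 2 := by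
  have h1 := h.pair_g_le V i
  have h2 := sq_sum_le_card_mul_sum_sq (s := S i) (f := fun k => ‖V k‖)
  have hm := h.card i
  have h4 : ((√((S i).card : ℝ))⁻¹) ^ 2 = ((S i).card : ℝ)⁻¹ := by
    rw [inv_pow, Real.sq_sqrt hm.le]
  rw [← sq_abs]
  calc |pair V (g i)| ^ 2 ≤ ((√((S i).card : ℝ))⁻¹ * ∑ k ∈ S i, ‖V k‖) ^ 2 := by gcongr
    _ = ((S i).card : ℝ)⁻¹ * (∑ k ∈ S i, ‖V k‖) ^ 2 := by rw [mul_pow, h4]
    _ ≤ ((S i).card : ℝ)⁻¹ * ((S i).card * ∑ k ∈ S i, ‖V k‖ ^ 2) := by gcongr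
    _ = _ := by field_simp

theorem Md.pair_g_add (h : Md g S R) (V V' : Fam) (i : I) :
    pair (fun k => V k + V' k) (g i) = pair V (g i) + pair V' (g i) := by
  rw [h.pair_g, h.pair_g, h.pair_g, ← Finset.sum_add_distrib]
  exact Finset.sum_congr rfl fun k _ => inner_add_left _ _ _

theorem Md.pair_g_smul (h : Md g S R) (a : ℝ) (V : Fam) (i : I) :
    pair (fun k => a • V k) (g i) = a * pair V (g i) := by
  rw [h.pair_g, h.pair_g, Finset.mul_sum]
  exact Finset.sum_congr rfl fun k _ => real_inner_smul_left _ _ _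

theorem pair_comm (V W : Fam) : pair V W = pair W V :=
  tsum_congr fun _ => real_inner_comm _ _

theorem Md.Sy_mem (h : Md g S R) (z : I → ℝ) {i : I} {k : Z3} (hk : k ∈ S i) :
    Sy g z k = z i • g i k := by
  unfold Sy
  refine tsum_eq_single i fun j hj => ?_
  rw [h.not fun hc => hj (h.uniq hc hk), smul_zero]

theorem Md.Sy_not (h : Md g S R) (z : I → ℝ) {k : Z3} (hk : ∀ i, k ∉ S i) : Sy g z k = 0 := by
  unfold Sy
  refine (tsum_congr fun i => ?_).trans tsum_zero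
  rw [h.not (hk i), smul_zero]

theorem Md.Sy_ot (h : Md g S R) (z : I → ℝ) : OT (Sy g z) := by
  refine ⟨fun k => ?_, fun k => ?_⟩
  · by_cases hk : ∃ i, k ∈ S i
    · obtain ⟨i, hi⟩ := hk
      rw [h.Sy_mem z hi, h.Sy_mem z (h.symm hi), (h.ot i).odd, smul_neg]
    · push Not at hk
      rw [h.Sy_not z hk, h.Sy_not z, neg_zero]
      intro i hi
      have := h.symm hi
      rw [neg_neg] at this
      exact hk i this
  · by_cases hk : ∃ i, k ∈ S i
    · obtain ⟨i, hi⟩ := hk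
      rw [h.Sy_mem z hi, real_inner_smul_right, (h.ot i).tan, mul_zero]
    · push Not at hk
      rw [h.Sy_not z hk, inner_zero_right]

theorem Md.Pg_ot (h : Md g S R) (V : Fam) : OT (Pg g V) := h.Sy_ot _

theorem Md.Pg_add (h : Md g S R) (V V' : Fam) :
    Pg g (fun k => V k + V' k) = fun k => Pg g V k + Pg g V' k := by
  funext k
  unfold Pg
  by_cases hk : ∃ i, k ∈ S i
  · obtain ⟨i, hi⟩ := hk
    rw [h.Sy_mem _ hi, h.Sy_mem _ hi, h.Sy_mem _ hi, h.pair_g_add, add_smul]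
  · push Not at hk
    rw [h.Sy_not _ hk, h.Sy_not _ hk, h.Sy_not _ hk, add_zero]

theorem Md.Pg_smul (h : Md g S R) (a : ℝ) (V : Fam) :
    Pg g (fun k => a • V k) = fun k => a • Pg g V k := by
  funext k
  unfold Pg
  by_cases hk : ∃ i, k ∈ S i
  · obtain ⟨i, hi⟩ := hk
    rw [h.Sy_mem _ hi, h.Sy_mem _ hi, h.pair_g_smul, mul_smul]
  · push Not at hk
    rw [h.Sy_not _ hk, h.Sy_not _ hk, smul_zero]

/-- the norm of the projection on one group of frequencies -/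
theorem Md.Pg_norm (h : Md g S R) (V : Fam) {i : I} {k : Z3} (hk : k ∈ S i) :
    ‖Pg g V k‖ = |pair V (g i)| * (√((S i).card : ℝ))⁻¹ := by
  unfold Pg
  rw [h.Sy_mem _ hk, norm_smul, Real.norm_eq_abs, h.norm hk]

theorem Md.Pg_not (h : Md g S R) (V : Fam) {k : Z3} (hk : ∀ i, k ∉ S i) : Pg g V k = 0 :=
  h.Sy_not _ hk

theorem Md.Pg_avg (h : Md g S R) {M : ℝ} {i : I} (hV : ∀ k ∈ S i, ‖V k‖ ≤ M) {k : Z3}
    (hk : k ∈ S i) : ‖Pg g V k‖ ≤ M := by
  rw [h.Pg_norm V hk]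
  have hm := h.card i
  have h1 := h.pair_g_le V i
  have h2 : ∑ k ∈ S i, ‖V k‖ ≤ (S i).card * M := by
    calc ∑ k ∈ S i, ‖V k‖ ≤ ∑ _k ∈ S i, M := Finset.sum_le_sum hV
      _ = _ := by rw [Finset.sum_const, nsmul_eq_mul]
  have h3 : (√((S i).card : ℝ))⁻¹ * (√((S i).card : ℝ))⁻¹ * ((S i).card : ℝ) = 1 := by
    rw [← mul_inv, Real.mul_self_sqrt hm.le, inv_mul_cancel₀ hm.ne']
  calc |pair V (g i)| * (√((S i).card : ℝ))⁻¹
      ≤ ((√((S i).card : ℝ))⁻¹ * ((S i).card * M)) * (√((S i).card : ℝ))⁻¹ := by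
        gcongr
        exact h1.trans (by gcongr)
    _ = ((√((S i).card : ℝ))⁻¹ * (√((S i).card : ℝ))⁻¹ * ((S i).card : ℝ)) * M := by ring
    _ = M := by rw [h3, one_mul]

theorem Md.Pg_rap (h : Md g S R) (hV : Rap V) : Rap (Pg g V) := by
  intro m
  obtain ⟨M, hM⟩ := hV m
  refine ⟨M, fun k => ?_⟩
  by_cases hk : ∃ i, k ∈ S i
  · obtain ⟨i, hi⟩ := hk
    rcases eq_or_ne (‖vec k‖ ^ m) 0 with h0 | h0
    · rw [h0, zero_mul]
      have := hM k
      rw [h0, zero_mul] at this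
      exact this
    · have hpos : 0 < ‖vec k‖ ^ m := lt_of_le_of_ne (by positivity) (Ne.symm h0)
      rw [← le_div_iff₀' hpos]
      refine h.Pg_avg (fun p hp => ?_) hi
      rw [le_div_iff₀' hpos, h.sph i k hi, ← h.sph i p hp]
      exact hM p
  · push Not at hk
    rw [h.Pg_not V hk, norm_zero, mul_zero]
    have := hM 0
    exact le_trans (by positivity) this

/-! ### Sums -/

theorem Md.sumS (h : Md g S R) {f w : Z3 → ℝ} (hf : ∀ k, 0 ≤ f k) (hw : ∀ k, 0 ≤ w k)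
    (sw : Summable w) (h0 : ∀ k, (∀ i, k ∉ S i) → f k = 0)
    (h1 : ∀ i, ∑ k ∈ S i, f k ≤ ∑ k ∈ S i, w k) : Summable f ∧ ∑' k, f k ≤ ∑' k, w k := by
  classical
  have key : ∀ F : Finset Z3, ∑ k ∈ F, f k ≤ ∑' k, w k := by
    intro F
    have hc : ∀ k : Z3, ∃ i : Option I, ∀ j, k ∈ S j → i = some j := by
      intro k
      by_cases hk : ∃ i, k ∈ S i
      · obtain ⟨i, hi⟩ := hk
        exact ⟨some i, fun j hj => by rw [h.uniq hi hj]⟩
      · exact ⟨none, fun j hj => absurd ⟨j, hj⟩ hk⟩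
    choose c hc using hc
    obtain ⟨J, hJ⟩ : ∃ J : Finset I, J = (F.image c).eraseNone := ⟨_, rfl⟩
    have hJm : ∀ k ∈ F, ∀ i, k ∈ S i → i ∈ J := by
      intro k hk i hi
      rw [hJ, Finset.mem_eraseNone, Finset.mem_image]
      exact ⟨k, hk, hc k i hi⟩
    have hd : ∀ i ∈ J, ∀ j ∈ J, i ≠ j → Disjoint (S i) (S j) := fun i _ j _ hij => h.disj i j hij
    calc ∑ k ∈ F, f k ≤ ∑ k ∈ J.biUnion S, f k := by
          have h3 : ∑ k ∈ F, f k = ∑ k ∈ F ∩ J.biUnion S, f k := by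
            refine (Finset.sum_subset Finset.inter_subset_left fun k hk hk2 => ?_).symm
            refine h0 k fun i hi => hk2 ?_
            rw [Finset.mem_inter, Finset.mem_biUnion]
            exact ⟨hk, i, hJm k hk i hi, hi⟩
          rw [h3]
          exact Finset.sum_le_sum_of_subset_of_nonneg Finset.inter_subset_right
            fun k _ _ => hf k
      _ = ∑ i ∈ J, ∑ k ∈ S i, f k := Finset.sum_biUnion hd
      _ ≤ ∑ i ∈ J, ∑ k ∈ S i, w k := Finset.sum_le_sum fun i _ => h1 i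
      _ = ∑ k ∈ J.biUnion S, w k := (Finset.sum_biUnion hd).symm
      _ ≤ _ := sw.sum_le_tsum _ fun k _ => hw k
  have hs : Summable f := summable_of_sum_le hf key
  exact ⟨hs, hs.tsum_le_of_sum_le key⟩

/-- weighted square norm of the projection -/
theorem Md.Pg_wsq (h : Md g S R) {w : Z3 → ℝ} (hw : ∀ k, 0 ≤ w k)
    (hc : ∀ i, ∀ k ∈ S i, ∀ p ∈ S i, w k = w p) (hs : Summable fun k => w k * ‖V k‖ ^ 2) :
    Summable (fun k => w k * ‖Pg g V k‖ ^ 2) ∧
      ∑' k, w k * ‖Pg g V k‖ ^ 2 ≤ ∑' k, w k * ‖V k‖ ^ 2 := by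
  refine h.sumS (fun k => mul_nonneg (hw k) (sq_nonneg _))
    (fun k => mul_nonneg (hw k) (sq_nonneg _)) hs (fun k hk => ?_) fun i => ?_
  · rw [h.Pg_not V hk, norm_zero]
    ring
  · obtain ⟨p, hp⟩ := h.ne i
    have hm := h.card i
    have e1 : ∑ k ∈ S i, w k * ‖Pg g V k‖ ^ 2 = w p * pair V (g i) ^ 2 := by
      have : ∀ k ∈ S i, w k * ‖Pg g V k‖ ^ 2 = w p * (pair V (g i) ^ 2 * ((S i).card : ℝ)⁻¹) := by
        intro k hk
        rw [h.Pg_norm V hk, hc i k hk p hp, mul_pow, sq_abs, inv_pow, Real.sq_sqrt hm.le]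
      rw [Finset.sum_congr rfl this, Finset.sum_const, nsmul_eq_mul]
      field_simp
    have e2 : ∑ k ∈ S i, w k * ‖V k‖ ^ 2 = w p * ∑ k ∈ S i, ‖V k‖ ^ 2 := by
      rw [Finset.mul_sum]
      exact Finset.sum_congr rfl fun k hk => by rw [hc i k hk p hp]
    rw [e1, e2]
    exact mul_le_mul_of_nonneg_left (h.pair_g_sq V i) (hw p)

/-- weighted `ℓ¹` norm of the projection -/
theorem Md.Pg_w1 (h : Md g S R) {w : Z3 → ℝ} (hw : ∀ k, 0 ≤ w k)
    (hc : ∀ i, ∀ k ∈ S i, ∀ p ∈ S i, w k = w p) (hs : Summable fun k => w k * ‖V k‖) :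
    Summable (fun k => w k * ‖Pg g V k‖) ∧
      ∑' k, w k * ‖Pg g V k‖ ≤ ∑' k, w k * ‖V k‖ := by
  refine h.sumS (fun k => mul_nonneg (hw k) (norm_nonneg _))
    (fun k => mul_nonneg (hw k) (norm_nonneg _)) hs (fun k hk => ?_) fun i => ?_
  · rw [h.Pg_not V hk, norm_zero, mul_zero]
  · obtain ⟨p, hp⟩ := h.ne i
    have hm := h.card i
    have hsq : 0 < √((S i).card : ℝ) := Real.sqrt_pos.2 hm
    have e1 : ∑ k ∈ S i, w k * ‖Pg g V k‖ = w p * (|pair V (g i)| * √((S i).card : ℝ)) := by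
      have : ∀ k ∈ S i, w k * ‖Pg g V k‖ = w p * (|pair V (g i)| * (√((S i).card : ℝ))⁻¹) := by
        intro k hk
        rw [h.Pg_norm V hk, hc i k hk p hp]
      rw [Finset.sum_congr rfl this, Finset.sum_const, nsmul_eq_mul]
      have e3 : ((S i).card : ℝ) * (√((S i).card : ℝ))⁻¹ = √((S i).card : ℝ) := by
        rw [mul_inv_eq_iff_eq_mul₀ hsq.ne', Real.mul_self_sqrt hm.le]
      calc ((S i).card : ℝ) * (w p * (|pair V (g i)| * (√((S i).card : ℝ))⁻¹))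
          = w p * (|pair V (g i)| * (((S i).card : ℝ) * (√((S i).card : ℝ))⁻¹)) := by ring
        _ = _ := by rw [e3]
    have e2 : ∑ k ∈ S i, w k * ‖V k‖ = w p * ∑ k ∈ S i, ‖V k‖ := by
      rw [Finset.mul_sum]
      exact Finset.sum_congr rfl fun k hk => by rw [hc i k hk p hp]
    rw [e1, e2]
    refine mul_le_mul_of_nonneg_left ?_ (hw p)
    have := h.pair_g_le V i
    rwa [inv_mul_eq_div, le_div_iff₀ hsq] at this

theorem Md.Pg_l2 (h : Md g S R) (hV : Rap V) : l2 (Pg g V) ≤ l2 V := by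
  unfold l2
  refine Real.sqrt_le_sqrt ?_
  have := (h.Pg_wsq (V := V) (w := fun _ => 1) (fun _ => zero_le_one) (fun _ _ _ _ _ => rfl)
    (by simpa using sq0 hV)).2
  simpa using this

theorem Md.Pg_h1 (h : Md g S R) (hV : Rap V) : h1 (Pg g V) ≤ h1 V := by
  unfold h1
  refine Real.sqrt_le_sqrt ?_
  refine (h.Pg_wsq (V := V) (w := fun k => ‖vec k‖ ^ 2) (fun _ => by positivity)
    (fun i k hk p hp => by rw [h.sph i k hk, h.sph i p hp]) ?_).2
  have := sq1 hV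
  simpa only [mul_pow] using this

theorem Md.Pg_A1 (h : Md g S R) (hV : Rap V) {t : ℝ} (ht : t ≤ 1) :
    A1 t (Pg g V) ≤ A1 t V := by
  unfold A1
  exact (h.Pg_w1 (V := V) (w := fun k => ‖vec k‖ ^ t) (fun _ => by positivity)
    (fun i k hk p hp => by rw [h.sph i k hk, h.sph i p hp]) (sumr hV ht)).2

theorem Md.sum_fib (h : Md g S R) {E : Type} [NormedAddCommGroup E] [CompleteSpace E]
    {f : Z3 → E} (hf : Summable f) (h0 : ∀ k, (∀ i, k ∉ S i) → f k = 0) :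
    Summable (fun i => ∑ k ∈ S i, f k) ∧ ∑' k, f k = ∑' i, ∑ k ∈ S i, f k := by
  obtain ⟨e, he⟩ : ∃ e : (Σ i : I, {k : Z3 // k ∈ S i}) → Z3, e = fun x => x.2.1 := ⟨_, rfl⟩
  have hinj : Function.Injective e := by
    rintro ⟨i, k, hk⟩ ⟨j, p, hp⟩ hx
    rw [he] at hx
    simp only at hx
    subst hx
    have := h.uniq hk hp
    subst this
    rfl
  have hs : Summable (f ∘ e) := hf.comp_injective hinj
  have h1 : ∑' x, f (e x) = ∑' k, f k := by
    refine hinj.tsum_eq ?_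
    intro k hk
    by_contra hc
    refine hk (h0 k fun i hi => hc ⟨⟨i, k, hi⟩, ?_⟩)
    rw [he]
  have h2 : ∀ i, ∑' c : {k : Z3 // k ∈ S i}, f (e ⟨i, c⟩) = ∑ k ∈ S i, f k := by
    intro i
    rw [he]
    exact Finset.tsum_subtype (S i) f
  have h3 := hs.sigma
  have h4 := hs.tsum_sigma
  simp only [Function.comp_apply, h2] at h3 h4
  exact ⟨h3, by rw [← h1, h4]⟩

theorem Md.dsum (h : Md g S R) {f : Z3 → ℝ} (hf : ∀ k, 0 ≤ f k) (sf : Summable f) :
    Summable (fun i => ∑ k ∈ S i, f k) ∧ ∑' i, ∑ k ∈ S i, f k ≤ ∑' k, f k := by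
  classical
  have h1 : ∀ u : Finset I, ∑ i ∈ u, ∑ k ∈ S i, f k ≤ ∑' k, f k := by
    intro u
    rw [← Finset.sum_biUnion fun i _ j _ hij => h.disj i j hij]
    exact sf.sum_le_tsum _ fun k _ => hf k
  have h2 : Summable (fun i => ∑ k ∈ S i, f k) :=
    summable_of_sum_le (fun i => Finset.sum_nonneg fun k _ => hf k) h1
  exact ⟨h2, h2.tsum_le_of_sum_le h1⟩

theorem Md.Pg_pair (h : Md g S R) (hV : Rap V) (hZ : Rap Z) :
    pair (Pg g V) Z = ∑' i, pair V (g i) * pair Z (g i) := by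
  have s1 := psum (h.Pg_rap hV) hZ
  obtain ⟨-, e1⟩ := h.sum_fib s1 fun k hk => by rw [h.Pg_not V hk, inner_zero_left]
  unfold pair
  rw [e1]
  refine tsum_congr fun i => ?_
  have e2 := h.pair_g Z i
  unfold pair at e2
  rw [e2, Finset.mul_sum]
  refine Finset.sum_congr rfl fun k hk => ?_
  unfold Pg
  rw [h.Sy_mem _ hk, real_inner_smul_left, real_inner_comm (g i k) (Z k)]
  rfl

theorem Md.Pg_adj (h : Md g S R) (hV : Rap V) (hZ : Rap Z) :
    pair (Pg g V) Z = pair V (Pg g Z) := by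
  rw [pair_comm V (Pg g Z), h.Pg_pair hV hZ, h.Pg_pair hZ hV]
  exact tsum_congr fun i => mul_comm _ _

theorem Md.fieldOf_g (h : Md g S R) (i : I) (y : E3) : fieldOf (g i) y =
    ∑ k ∈ S i, Real.sin (2 * Real.pi * inner ℝ (vec k) y) • g i k := by
  unfold fieldOf
  refine tsum_eq_sum fun k hk => ?_
  rw [h.not hk, smul_zero]

theorem fsum (hV : Rap V) (y : E3) :
    Summable (fun k => Real.sin (2 * Real.pi * inner ℝ (vec k) y) • V k) := by
  refine Summable.of_norm_bounded (sum0 hV) fun k => ?_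
  rw [norm_smul, Real.norm_eq_abs]
  calc |Real.sin (2 * Real.pi * inner ℝ (vec k) y)| * ‖V k‖ ≤ 1 * ‖V k‖ := by
        gcongr
        exact Real.abs_sin_le_one _
    _ = _ := one_mul _

theorem Md.Pg_sup (h : Md g S R) (hV : Rap V) {δ s : ℝ} (hδ : 0 ≤ δ) (hs : s - 1 ≤ 1)
    (hsup : ∀ i y, ‖fieldOf (g i) y‖ ≤ δ * R i ^ (s - 1) * √((S i).card : ℝ)) (y : E3) :
    ‖fieldOf (Pg g V) y‖ ≤ δ * A1 (s - 1) V := by
  obtain ⟨-, e1⟩ := h.sum_fib (fsum (h.Pg_rap hV) y) fun k hk => by rw [h.Pg_not V hk, smul_zero]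
  have e2 : fieldOf (Pg g V) y = ∑' i, pair V (g i) • fieldOf (g i) y := by
    unfold fieldOf
    rw [e1]
    refine tsum_congr fun i => ?_
    have := h.fieldOf_g i y
    unfold fieldOf at this
    rw [this, Finset.smul_sum]
    refine Finset.sum_congr rfl fun k hk => ?_
    unfold Pg
    rw [h.Sy_mem _ hk, smul_comm]
  have hb : ∀ i, ‖pair V (g i) • fieldOf (g i) y‖ ≤ δ * ∑ k ∈ S i, ‖vec k‖ ^ (s - 1) * ‖V k‖ := by
    intro i
    have hm := h.card i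
    have hsq : 0 < √((S i).card : ℝ) := Real.sqrt_pos.2 hm
    obtain ⟨p, hp⟩ := h.ne i
    have hR : 0 ≤ R i := by rw [← h.sph i p hp]; positivity
    have e3 : ∑ k ∈ S i, ‖vec k‖ ^ (s - 1) * ‖V k‖ = R i ^ (s - 1) * ∑ k ∈ S i, ‖V k‖ := by
      rw [Finset.mul_sum]
      exact Finset.sum_congr rfl fun k hk => by rw [h.sph i k hk]
    rw [norm_smul, Real.norm_eq_abs, e3]
    calc |pair V (g i)| * ‖fieldOf (g i) y‖ ≤ ((√((S i).card : ℝ))⁻¹ * ∑ k ∈ S i, ‖V k‖) *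
          (δ * R i ^ (s - 1) * √((S i).card : ℝ)) :=
          mul_le_mul (h.pair_g_le V i) (hsup i y) (norm_nonneg _)
            (mul_nonneg (by positivity) (Finset.sum_nonneg fun _ _ => norm_nonneg _))
      _ = ((√((S i).card : ℝ))⁻¹ * √((S i).card : ℝ)) *
          (δ * (R i ^ (s - 1) * ∑ k ∈ S i, ‖V k‖)) := by ring
      _ = _ := by rw [inv_mul_cancel₀ hsq.ne', one_mul]
  obtain ⟨s2, t2⟩ := h.dsum (f := fun k => ‖vec k‖ ^ (s - 1) * ‖V k‖) (fun _ => by positivity)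
    (sumr hV hs)
  have s3 := s2.mul_left δ
  have s4 : Summable (fun i => ‖pair V (g i) • fieldOf (g i) y‖) :=
    Summable.of_nonneg_of_le (fun _ => norm_nonneg _) hb s3
  rw [e2]
  refine (norm_tsum_le_tsum_norm s4).trans ((s4.tsum_le_tsum hb s3).trans ?_)
  rw [tsum_mul_left]
  exact mul_le_mul_of_nonneg_left t2 hδ

end Pool.Agent.K1H30.OP2
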