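import Pool.Agent.K1H30.OP2.Ex2

/-! Restriction to the shells `≥ n₀` (`S_SUB`). -/

open Set Topology MeasureTheory
open Filter hiding ker

set_option autoImplicit false

namespace Pool.Agent.K1H30.OP2

open Pool.Agent.Y5 Pool.Agent.Y5.D Pool.Agent.Y5.E Pool.Agent.K1H54.LO Pool.Agent.K1H54.L2

variable {I : Type} {sh : I → ℕ} {ty : I → Bool} {ρ : ℕ → ℕ} {g : I → Fam}
  {S : I → Finset Z3} {R : I → ℝ} {N : ℕ → ℝ} {s N₁ δ c₀ lam ε : ℝ} {n₀ : ℕ}

theorem shl_sub (h : Shl sh ty ρ) : Shl (fun i : Sub sh n₀ => sh i - n₀)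
    (fun i : Sub sh n₀ => ty i) (fun n => ρ (n₀ + n)) := by
  have key : ∀ n b, (Subtype.val : Sub sh n₀ → I) ''
      {i : Sub sh n₀ | sh i - n₀ = n ∧ ty i = b} = {i | sh i = n₀ + n ∧ ty i = b} := by
    intro n b
    ext i
    constructor
    · rintro ⟨j, ⟨h1, h2⟩, rfl⟩
      have := j.2
      exact ⟨by omega, h2⟩
    · rintro ⟨h1, h2⟩
      exact ⟨⟨i, by omega⟩, ⟨by show sh i - n₀ = n; omega, h2⟩, rfl⟩
  refine ⟨fun n b => ?_, fun n b => ?_, fun n => h.pos _⟩
  · refine Set.Finite.of_finite_image ?_ Subtype.val_injective.injOn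
    rw [key]
    exact h.fin _ _
  · rw [← Set.ncard_image_of_injective _ Subtype.val_injective, key]
    exact h.card _ _

theorem ms_sub (h : MS sh ty ρ g S R N s N₁ δ c₀ lam) :
    MS (fun i : Sub sh n₀ => sh i - n₀) (fun i => ty i) (fun n => ρ (n₀ + n)) (fun i => g i)
    (fun i => S i) (fun i => R i) (fun n => N (n₀ + n)) s N₁ δ (c₀ * lam ^ n₀) lam where
  shl := shl_sub h.shl
  ot i := h.ot i
  supp i := h.supp i
  flat i := h.flat i
  disj i j hij := h.disj i j fun hc => hij (Subtype.ext hc)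
  ne i := h.ne i
  sph i := h.sph i
  size i := by
    have h1 : n₀ + (sh i - n₀) = sh i := by have := i.2; omega
    show N (n₀ + (sh i - n₀)) ≤ R i ∧ R i ≤ 2 * N (n₀ + (sh i - n₀))
    rw [h1]
    exact h.size i
  big i := h.big i
  N1 n := h.N1 _
  mono n := h.mono _
  sup i := h.sup i
  coef i := by
    have h1 : n₀ + (sh i - n₀) = sh i := by have := i.2; omega
    show c₀ * lam ^ n₀ * lam ^ (sh i - n₀) ≤
      δ * N (n₀ + (sh i - n₀)) ^ s * (√(ρ (n₀ + (sh i - n₀)) : ℝ) * √((S i).card : ℝ))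
    rw [mul_assoc c₀, ← pow_add, h1]
    exact h.coef i
  lam1 := h.lam1
  grow := by
    obtain ⟨X, hX⟩ := h.grow
    refine ⟨X * lam ^ n₀, fun n => ?_⟩
    rw [mul_assoc, ← pow_add]
    exact hX _
  poly := by
    obtain ⟨X, hX⟩ := h.poly
    refine ⟨X, fun n => le_trans ?_ (hX (n₀ + n))⟩
    exact pow_le_pow_right₀ h.lam1.le (by omega)
  cards i := by
    have h1 : n₀ + (sh i - n₀) = sh i := by have := i.2; omega
    show ((S i).card : ℝ) ≤ 4 * N (n₀ + (sh i - n₀))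
    rw [h1]
    exact h.cards i
  c0 := mul_pos h.c0 (pow_pos (by linarith [h.lam1]) _)

/-- synthesis over the subsystem -/
theorem Sy_sub (z : Sub sh n₀ → ℝ) (w : I → ℝ) (h1 : ∀ i : Sub sh n₀, w i = z i)
    (h2 : ∀ i, ¬ n₀ ≤ sh i → w i = 0) : Sy (fun i : Sub sh n₀ => g i) z = Sy g w := by
  funext k
  unfold Sy
  have h3 : (fun i : Sub sh n₀ => z i • g i k) = fun i : Sub sh n₀ => w i • g i k := by
    funext i
    rw [h1]
  rw [h3]
  refine Function.Injective.tsum_eq (g := (Subtype.val : Sub sh n₀ → I))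
    (f := fun i => w i • g i k) Subtype.val_injective ?_
  intro i hi
  by_cases h4 : n₀ ≤ sh i
  · exact ⟨⟨i, h4⟩, rfl⟩
  · exact absurd (by show w i • g i k = 0; rw [h2 i h4, zero_smul]) hi

theorem Sy_fv_sub (b : Bool) (n : ℕ) :
    Sy (fun i : Sub sh n₀ => g i) (fv (fun i : Sub sh n₀ => sh i - n₀) (fun i => ty i)
      (fun n => ρ (n₀ + n)) b n) = Sy g (fv sh ty ρ b (n₀ + n)) := by
  refine Sy_sub _ _ (fun i => ?_) (fun i hi => ?_)
  · unfold fv
    have h0 := i.2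
    by_cases h1 : sh i = n₀ + n ∧ ty i = b
    · rw [if_pos h1, if_pos ⟨by show sh i - n₀ = n; omega, h1.2⟩]
    · rw [if_neg h1, if_neg]
      rintro ⟨h2, h3⟩
      have h2' : sh i - n₀ = n := h2
      exact h1 ⟨by omega, h3⟩
  · unfold fv
    rw [if_neg]
    rintro ⟨h2, _⟩
    omega

theorem t_SUB : S_SUB := by
  classical
  intro I sh ty ρ g S R N s N₁ δ c₀ lam ε n₀ hN hM
  refine ⟨ms_sub hM, fun z Z _ _ _ => ?_⟩
  have h := md_of hM
  have h' := md_of (ms_sub (n₀ := n₀) hM)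
  -- extension by zero
  set w : I → ℝ := fun i => if hi : n₀ ≤ sh i then z ⟨i, hi⟩ else 0 with hw
  have hwz : Sy (fun i : Sub sh n₀ => g i) z = Sy g w := by
    refine Sy_sub z w (fun i => ?_) (fun i hi => ?_)
    · rw [hw]
      simp only
      rw [dif_pos i.2]
    · rw [hw]
      simp only
      rw [dif_neg hi]
  have hw0 : ∀ i, ¬ n₀ ≤ sh i → w i = 0 := by
    intro i hi
    rw [hw]
    simp only
    rw [dif_neg hi]
  have e1 : bg g (Sy (fun i : Sub sh n₀ => g i) z) (Sy (fun i : Sub sh n₀ => g i) z) Z =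
      bg (fun i : Sub sh n₀ => g i) (Sy (fun i : Sub sh n₀ => g i) z)
        (Sy (fun i : Sub sh n₀ => g i) z) Z := by
    rw [h'.bg_Sy, hwz, h.bg_Sy]
  unfold bQ
  rw [e1]
  congr 1
  rw [hwz]
  -- the shells below `n₀` do not contribute
  have hlow : ∀ b n, n < n₀ → pair (Sy g w) (Sy g (fv sh ty ρ b n)) = 0 := by
    intro b n hn
    rw [am_Sy h hM.shl]
    unfold am
    refine (tsum_congr fun i => ?_).trans tsum_zero
    by_cases hi : n₀ ≤ sh i
    · unfold fv
      rw [if_neg, zero_mul]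
      rintro ⟨h2, _⟩
      omega
    · rw [hw0 i hi, mul_zero]
  unfold bT
  simp only [Sy_fv_sub]
  symm
  have hinj : Function.Injective (fun n : ℕ => n₀ + n) := fun a b hab => by
    simpa using hab
  have e2 := Function.Injective.tsum_eq hinj (f := fun n : ℕ => c₀ * lam ^ n * (
    pair (Sy g w) (Sy g (fv sh ty ρ false n)) * (pair (Sy g w) (Sy g (fv sh ty ρ true n)) *
      pair Z (Sy g (fv sh ty ρ false n)) - pair (Sy g w) (Sy g (fv sh ty ρ false n)) *
      pair Z (Sy g (fv sh ty ρ true n)))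
    + pair (Sy g w) (Sy g (fv sh ty ρ false n)) * (pair (Sy g w) (Sy g (fv sh ty ρ false n)) *
      pair Z (Sy g (fv sh ty ρ true (n + 1))) - pair (Sy g w) (Sy g (fv sh ty ρ true (n + 1))) *
      pair Z (Sy g (fv sh ty ρ false n)))
    + ε * (pair (Sy g w) (Sy g (fv sh ty ρ true n)) * (pair (Sy g w) (Sy g (fv sh ty ρ true n)) *
      pair Z (Sy g (fv sh ty ρ false n)) - pair (Sy g w) (Sy g (fv sh ty ρ false n)) *
      pair Z (Sy g (fv sh ty ρ true n)))))) ?_
  · rw [← e2]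
    refine tsum_congr fun n => ?_
    rw [mul_assoc c₀, ← pow_add]
    rfl
  · intro n hn
    by_contra h1
    apply hn
    have h2 : n < n₀ := by
      by_contra h3
      exact h1 ⟨n - n₀, by show n₀ + (n - n₀) = n; omega⟩
    simp only [hlow _ n h2]
    ring

end Pool.Agent.K1H30.OP2
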